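import Pool.Agent.Lib.MP_296844_an.ND.Newt

set_option autoImplicit false

/-! Newton diagrams with one, two or three edges. -/

namespace Pool.Agent.Lib.MP_296844_an.ND

open Filter Topology Real Finset

theorem poly_half {a b : ℕ × ℕ → ℝ} {p q m : ℝ} (hp : 0 ≤ p) (hq : 0 ≤ q)
    (hlow : ∀ n : ℕ × ℕ, (a n ≠ 0 ∨ b n ≠ 0) → m ≤ p * n.1 + q * n.2) :
    ∀ z ∈ newtonPolygon a b, m ≤ p * z.1 + q * z.2 := by
  have hconv : Convex ℝ {z : ℝ × ℝ | m ≤ p * z.1 + q * z.2} := by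
    intro x hx y hy s t hs ht hst
    simp only [Set.mem_ofPred_eq, Prod.fst_add, Prod.snd_add, Prod.smul_fst, Prod.smul_snd,
      smul_eq_mul] at hx hy ⊢
    have e1 := mul_le_mul_of_nonneg_left hx hs
    have e2 := mul_le_mul_of_nonneg_left hy ht
    have e3 : m = s * m + t * m := by rw [← add_mul, hst, one_mul]
    nlinarith
  intro z hz
  refine convexHull_min ?_ hconv hz
  rintro w ⟨n, hn, h1, h2⟩
  have h3 := hlow n hn
  have h4 := mul_le_mul_of_nonneg_left h1 hp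
  have h5 := mul_le_mul_of_nonneg_left h2 hq
  show m ≤ p * w.1 + q * w.2
  linarith

theorem poly_mem {a b : ℕ × ℕ → ℝ} {V : ℕ × ℕ} (h : a V ≠ 0 ∨ b V ≠ 0) :
    (((V.1 : ℝ), (V.2 : ℝ)) : ℝ × ℝ) ∈ newtonPolygon a b :=
  subset_convexHull ℝ _ ⟨V, h, le_rfl, le_rfl⟩

theorem ne_between {a b : ℕ × ℕ → ℝ} {p1 q1 p2 q2 : ℝ} {V : ℕ × ℕ} {p' q' : ℕ}
    (hV : a V ≠ 0 ∨ b V ≠ 0)
    (l1 : ∀ z ∈ newtonPolygon a b, p1 * V.1 + q1 * V.2 ≤ p1 * z.1 + q1 * z.2)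
    (l2 : ∀ z ∈ newtonPolygon a b, p2 * V.1 + q2 * V.2 ≤ p2 * z.1 + q2 * z.2)
    (hD : 0 < p1 * q2 - q1 * p2) (c1 : 0 < p1 * q' - q1 * p') (c2 : 0 < p' * q2 - q' * p2) :
    ¬ IsEdgeWeight a b p' q' := by
  rintro ⟨-, -, -, m, hm, z, ⟨hz, hz'⟩, w, ⟨hw, hw'⟩, hzw⟩
  have hmV := hm _ (poly_mem hV)
  dsimp only at hmV
  have key : ∀ x ∈ newtonPolygon a b, (p' : ℝ) * x.1 + q' * x.2 = m →
      x = (((V.1 : ℝ), (V.2 : ℝ)) : ℝ × ℝ) := by
    intro x hx hx'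
    obtain ⟨A, hA⟩ : ∃ A, A = p1 * (x.1 - V.1) + q1 * (x.2 - V.2) := ⟨_, rfl⟩
    obtain ⟨B, hB⟩ : ∃ B, B = p2 * (x.1 - V.1) + q2 * (x.2 - V.2) := ⟨_, rfl⟩
    have hA0 : 0 ≤ A := by have := l1 x hx; rw [hA]; linarith
    have hB0 : 0 ≤ B := by have := l2 x hx; rw [hB]; linarith
    have e : (p' * q2 - q' * p2) * A + (p1 * q' - q1 * p') * B =
        (p1 * q2 - q1 * p2) * (m - (p' * V.1 + q' * V.2)) := by
      rw [hA, hB, ← hx']; ring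
    have e1 := mul_nonneg c2.le hA0
    have e2 := mul_nonneg c1.le hB0
    have e3 : (p1 * q2 - q1 * p2) * (m - (p' * V.1 + q' * V.2)) ≤ 0 :=
      mul_nonpos_of_nonneg_of_nonpos hD.le (by linarith)
    have a0 : A = 0 := (mul_eq_zero.1 (show (p' * q2 - q' * p2) * A = 0 by linarith)).resolve_left
      c2.ne'
    have b0 : B = 0 := (mul_eq_zero.1 (show (p1 * q' - q1 * p') * B = 0 by linarith)).resolve_left
      c1.ne'
    have f1 : (p1 * q2 - q1 * p2) * (x.1 - V.1) = 0 := by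
      have : (p1 * q2 - q1 * p2) * (x.1 - V.1) = q2 * A - q1 * B := by rw [hA, hB]; ring
      rw [this, a0, b0]; ring
    have f2 : (p1 * q2 - q1 * p2) * (x.2 - V.2) = 0 := by
      have : (p1 * q2 - q1 * p2) * (x.2 - V.2) = p1 * B - p2 * A := by rw [hA, hB]; ring
      rw [this, a0, b0]; ring
    exact Prod.ext (sub_eq_zero.1 ((mul_eq_zero.1 f1).resolve_left hD.ne'))
      (sub_eq_zero.1 ((mul_eq_zero.1 f2).resolve_left hD.ne'))
  exact hzw ((key z hz hz').trans (key w hw hw').symm)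

theorem eq_of_cross {p q p' q' : ℕ} (hc : Nat.Coprime p q) (hc' : Nat.Coprime p' q')
    (hp : 0 < p) (h : p' * q = q' * p) : p' = p ∧ q' = q := by
  have h1 : p ∣ p' := hc.dvd_of_dvd_mul_right ⟨q', by rw [h, mul_comm]⟩
  have h2 : p' ∣ p := hc'.dvd_of_dvd_mul_left ⟨q, h.symm⟩
  have h3 : p' = p := Nat.dvd_antisymm h2 h1
  refine ⟨h3, ?_⟩
  rw [h3, mul_comm q' p] at h
  exact (Nat.eq_of_mul_eq_mul_left hp h).symm

section
variable {a b : ℕ × ℕ → ℝ} {p q : ℕ} {ξ g0 g1 : ℝ} {V0 V1 : ℕ × ℕ}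

theorem EO.s0 (h : EO a b p q ξ V0 V1 g0 g1) : a V0 ≠ 0 ∨ b V0 ≠ 0 := by
  by_contra hc
  rw [not_or, not_not, not_not] at hc
  apply h.n0
  rw [← h.v0, hc.1, hc.2]
  ring

theorem EO.s1 (h : EO a b p q ξ V0 V1 g0 g1) : a V1 ≠ 0 ∨ b V1 ≠ 0 := by
  by_contra hc
  rw [not_or, not_not, not_not] at hc
  apply h.n1
  rw [← h.v1, hc.1, hc.2]
  ring

theorem EO.half (h : EO a b p q ξ V0 V1 g0 g1) :
    ∀ z ∈ newtonPolygon a b, (level a b p q : ℝ) ≤ p * z.1 + q * z.2 :=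
  poly_half (Nat.cast_nonneg _) (Nat.cast_nonneg _) fun n hn => by exact_mod_cast h.low n hn

theorem EO.half0 (h : EO a b p q ξ V0 V1 g0 g1) :
    ∀ z ∈ newtonPolygon a b, (p : ℝ) * V0.1 + q * V0.2 ≤ p * z.1 + q * z.2 := by
  have e : (p : ℝ) * V0.1 + q * V0.2 = level a b p q := by exact_mod_cast h.e0
  rw [e]
  exact h.half

theorem EO.half1 (h : EO a b p q ξ V0 V1 g0 g1) :
    ∀ z ∈ newtonPolygon a b, (p : ℝ) * V1.1 + q * V1.2 ≤ p * z.1 + q * z.2 := by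
  have e : (p : ℝ) * V1.1 + q * V1.2 = level a b p q := by exact_mod_cast h.e1
  rw [e]
  exact h.half

theorem EO.edge (h : EO a b p q ξ V0 V1 g0 g1) : IsEdgeWeight a b p q := by
  refine ⟨h.hp, h.hq, h.hc, level a b p q, h.half, _, ⟨poly_mem h.s0, ?_⟩, _,
    ⟨poly_mem h.s1, ?_⟩, fun e => h.ne ?_⟩
  · dsimp only
    exact_mod_cast h.e0
  · dsimp only
    exact_mod_cast h.e1
  · have e1 : (V0.1 : ℝ) = V1.1 := congrArg Prod.fst e
    have e2 : (V0.2 : ℝ) = V1.2 := congrArg Prod.snd e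
    exact Prod.ext (by exact_mod_cast e1) (by exact_mod_cast e2)

theorem EO.eq_of (h : EO a b p q ξ V0 V1 g0 g1) {p' q' : ℕ} (h' : IsEdgeWeight a b p' q')
    (e : p' * q = q' * p) : p' = p ∧ q' = q :=
  eq_of_cross h.hc h'.2.2.1 h.hp e

theorem EO.left {j : ℕ} (h : EO a b p q ξ (0, j) V1 g0 g1) {p' q' : ℕ}
    (h' : IsEdgeWeight a b p' q') : p' * q ≤ q' * p := by
  by_contra hlt
  have h1 : (q' : ℝ) * p < p' * q := by exact_mod_cast not_le.1 hlt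
  have h2 : (0 : ℝ) < q := by exact_mod_cast h.hq
  have h3 : (0 : ℝ) < q' := by exact_mod_cast h'.2.1
  refine ne_between (p1 := 1) (q1 := 0) h.s0 ?_ h.half0 (by linarith) (by linarith)
    (by linarith) h'
  refine poly_half zero_le_one le_rfl fun n _ => ?_
  simp

theorem EO.right {i : ℕ} (h : EO a b p q ξ V0 (i, 0) g0 g1) {p' q' : ℕ}
    (h' : IsEdgeWeight a b p' q') : q' * p ≤ p' * q := by
  by_contra hlt
  have h1 : (p' : ℝ) * q < q' * p := by exact_mod_cast not_le.1 hlt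
  have h2 : (0 : ℝ) < p := by exact_mod_cast h.hp
  have h3 : (0 : ℝ) < p' := by exact_mod_cast h'.1
  refine ne_between (p2 := 0) (q2 := 1) h.s1 h.half1 ?_ (by linarith) (by linarith)
    (by linarith) h'
  refine poly_half le_rfl zero_le_one fun n _ => ?_
  simp

theorem EO.mid {p2 q2 : ℕ} {ξ2 k0 k1 : ℝ} {V2 : ℕ × ℕ} (h : EO a b p q ξ V0 V1 g0 g1)
    (h2 : EO a b p2 q2 ξ2 V1 V2 k0 k1) (c : q * p2 < p * q2) {p' q' : ℕ}
    (h' : IsEdgeWeight a b p' q') : q' * p ≤ p' * q ∨ p' * q2 ≤ q' * p2 := by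
  by_contra hno
  rw [not_or, not_le, not_le] at hno
  have c0 : (q : ℝ) * p2 < p * q2 := by exact_mod_cast c
  have c1 : (p' : ℝ) * q < q' * p := by exact_mod_cast hno.1
  have c2 : (q' : ℝ) * p2 < p' * q2 := by exact_mod_cast hno.2
  exact ne_between h.s1 h.half1 h2.half0 (by linarith) (by linarith) (by linarith) h'

theorem div_lt_of {p q p2 q2 : ℕ} (hp : 0 < p) (hp2 : 0 < p2) (c : q * p2 < p * q2) :
    (q : ℝ) / p < (q2 : ℝ) / p2 := by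
  rw [div_lt_div_iff₀ (by exact_mod_cast hp) (by exact_mod_cast hp2), mul_comm (q2 : ℝ)]
  exact_mod_cast c

theorem EO.vertex {p2 q2 : ℕ} {ξ2 k0 k1 : ℝ} {V2 : ℕ × ℕ} (h : EO a b p q ξ V0 V1 g0 g1)
    (h2 : EO a b p2 q2 ξ2 V1 V2 k0 k1) : ∃ n : ℕ × ℕ,
    p * n.1 + q * n.2 = level a b p q ∧ p2 * n.1 + q2 * n.2 = level a b p2 q2 ∧
    p * b n - q * a n ≠ 0 ∧ p2 * b n - q2 * a n ≠ 0 ∧
    k0 / g1 = (p2 * b n - q2 * a n) / (p * b n - q * a n) :=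
  ⟨V1, h.e1, h2.e0, h.v1 ▸ h.n1, h2.v0 ▸ h2.n0, by rw [h.v1, h2.v0]⟩

end

theorem data1 {a b : ℕ × ℕ → ℝ} {p q i j : ℕ} {ξ g0 g1 : ℝ}
    (h : EO a b p q ξ (0, j) (i, 0) g0 g1) : IsData a b 1 ![p] ![q] ![ξ] ![1] := by
  refine ⟨fun p' q' => ⟨fun h' => ⟨0, h.eq_of h' (le_antisymm (h.left h') (h.right h'))⟩, ?_⟩,
    Subsingleton.strictMono _, fun k => ?_, fun k _ => ?_, fun k l hkl => ?_⟩
  · rintro ⟨k, rfl, rfl⟩
    fin_cases k
    exact h.edge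
  · fin_cases k
    exact h.pv
  · fin_cases k
    rfl
  · have := l.isLt
    omega

theorem data2 {a b : ℕ × ℕ → ℝ} {p1 q1 p2 q2 i j : ℕ} {V : ℕ × ℕ} {ξ1 ξ2 g0 g1 k0 k1 : ℝ}
    (h1 : EO a b p1 q1 ξ1 (0, j) V g0 g1) (h2 : EO a b p2 q2 ξ2 V (i, 0) k0 k1)
    (c : q1 * p2 < p1 * q2) :
    IsData a b 2 ![p1, p2] ![q1, q2] ![ξ1, ξ2] ![1, k0 / g1] := by
  refine ⟨fun p' q' => ⟨fun h' => ?_, ?_⟩, ?_, fun k => ?_, fun k hk => ?_, fun k l hkl => ?_⟩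
  · rcases h1.mid h2 c h' with e | e
    · exact ⟨0, h1.eq_of h' (le_antisymm (h1.left h') e)⟩
    · exact ⟨1, h2.eq_of h' (le_antisymm e (h2.right h'))⟩
  · rintro ⟨k, rfl, rfl⟩
    fin_cases k
    · exact h1.edge
    · exact h2.edge
  · rw [Fin.strictMono_iff_lt_succ]
    intro k
    fin_cases k
    exact div_lt_of h1.hp h2.hp c
  · fin_cases k
    · exact h1.pv
    · exact h2.pv
  · fin_cases k
    · rfl
    · simp at hk
  · fin_cases k <;> fin_cases l <;> simp at hkl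
    exact h1.vertex h2

theorem data3 {a b : ℕ × ℕ → ℝ} {p1 q1 p2 q2 p3 q3 i j : ℕ} {V V' : ℕ × ℕ}
    {ξ1 ξ2 ξ3 g0 g1 k0 k1 l0 l1 : ℝ}
    (h1 : EO a b p1 q1 ξ1 (0, j) V g0 g1) (h2 : EO a b p2 q2 ξ2 V V' k0 k1)
    (h3 : EO a b p3 q3 ξ3 V' (i, 0) l0 l1)
    (c : q1 * p2 < p1 * q2) (c' : q2 * p3 < p2 * q3) :
    IsData a b 3 ![p1, p2, p3] ![q1, q2, q3] ![ξ1, ξ2, ξ3] ![1, k0 / g1, l0 / k1] := by
  refine ⟨fun p' q' => ⟨fun h' => ?_, ?_⟩, ?_, fun k => ?_, fun k hk => ?_, fun k l hkl => ?_⟩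
  · rcases h1.mid h2 c h' with e | e
    · exact ⟨0, h1.eq_of h' (le_antisymm (h1.left h') e)⟩
    · rcases h2.mid h3 c' h' with e' | e'
      · exact ⟨1, h2.eq_of h' (le_antisymm e e')⟩
      · exact ⟨2, h3.eq_of h' (le_antisymm e' (h3.right h'))⟩
  · rintro ⟨k, rfl, rfl⟩
    fin_cases k
    · exact h1.edge
    · exact h2.edge
    · exact h3.edge
  · rw [Fin.strictMono_iff_lt_succ]
    intro k
    fin_cases k
    · exact div_lt_of h1.hp h2.hp c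
    · exact div_lt_of h2.hp h3.hp c'
  · fin_cases k
    · exact h1.pv
    · exact h2.pv
    · exact h3.pv
  · fin_cases k
    · rfl
    · simp at hk
    · simp at hk
  · fin_cases k <;> fin_cases l <;> simp at hkl
    · exact h1.vertex h2
    · exact h2.vertex h3

end Pool.Agent.Lib.MP_296844_an.ND
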