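import Pool.Agent.Lib.MP_296844_an.Defs

set_option autoImplicit false

/-! Definitions for the centre with a nondegenerate Newton diagram. -/

namespace Pool.Agent.Lib.MP_296844_an

/-- with `A = x^4 + y^2`, `B = x y`, `S = 2 A^2 + B^2 - A B`, `T = A^2 + A B`:
the field `-(2 y S + x T) ∂x + (4 x^3 S + y T) ∂y` -/
def centerField (z : ℝ × ℝ) : ℝ × ℝ :=
  (-(2 * z.2 * (2 * (z.1 ^ 4 + z.2 ^ 2) ^ 2 + (z.1 * z.2) ^ 2 - (z.1 ^ 4 + z.2 ^ 2) * (z.1 * z.2)) +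
      z.1 * ((z.1 ^ 4 + z.2 ^ 2) ^ 2 + (z.1 ^ 4 + z.2 ^ 2) * (z.1 * z.2))),
    4 * z.1 ^ 3 * (2 * (z.1 ^ 4 + z.2 ^ 2) ^ 2 + (z.1 * z.2) ^ 2 - (z.1 ^ 4 + z.2 ^ 2) * (z.1 * z.2)) +
      z.2 * ((z.1 ^ 4 + z.2 ^ 2) ^ 2 + (z.1 ^ 4 + z.2 ^ 2) * (z.1 * z.2)))

/-- `(p i, q i)`, `i < l`, are all the edge weights of the Newton diagram, ordered by `q / p`;
the principal values exist and are `ξ i`; the first `lam` is `1`; the lowest lines of two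
consecutive weights meet in a nondegenerate vertex `n`, and the next `lam` is the quotient at `n` -/
def IsData (a b : ℕ × ℕ → ℝ) (l : ℕ) (p q : Fin l → ℕ) (ξ lam : Fin l → ℝ) : Prop :=
  (∀ p' q', IsEdgeWeight a b p' q' ↔ ∃ i, p' = p i ∧ q' = q i) ∧
  StrictMono (fun i => (q i : ℝ) / p i) ∧
  (∀ i, HasPV (angF a b (p i) (q i)) (angG a b (p i) (q i)) (ξ i)) ∧
  (∀ i : Fin l, i.val = 0 → lam i = 1) ∧
  ∀ i j : Fin l, j.val = i.val + 1 → ∃ n : ℕ × ℕ,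
    p i * n.1 + q i * n.2 = level a b (p i) (q i) ∧
    p j * n.1 + q j * n.2 = level a b (p j) (q j) ∧
    p i * b n - q i * a n ≠ 0 ∧ p j * b n - q j * a n ≠ 0 ∧
    lam j = (p j * b n - q j * a n) / (p i * b n - q i * a n)

end Pool.Agent.Lib.MP_296844_an
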