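import Pool.Agent.Lib.MP_296844_an.ND.PVal

set_option autoImplicit false

/-! The three lowest quasihomogeneous parts in a chart and their principal values. -/

namespace Pool.Agent.Lib.MP_296844_an.ND

open Filter Topology MeasureTheory Real

def P1 (X Y : ℝ) : ℝ := -(Y ^ 3 * (4 * Y ^ 2 - X * Y + 3 * X ^ 2))
def Q1 (X Y : ℝ) : ℝ := Y ^ 4 * (X + Y)
def P2 (X Y : ℝ) : ℝ := -(X ^ 2 * Y * (3 * Y ^ 2 + X ^ 4))
def Q2 (X Y : ℝ) : ℝ := X * Y ^ 2 * (5 * X ^ 4 + Y ^ 2)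
def P3 (X Y : ℝ) : ℝ := -(X ^ 6 * (X ^ 3 + Y))
def Q3 (X Y : ℝ) : ℝ := X ^ 5 * (8 * X ^ 6 - 3 * X ^ 3 * Y + 5 * Y ^ 2)

noncomputable def A1 (a b e d u v : ℝ) : ℝ :=
  (d * P1 (a * u + b * v) (e * u + d * v) - b * Q1 (a * u + b * v) (e * u + d * v)) / (a * d - b * e)
noncomputable def B1 (a b e d u v : ℝ) : ℝ :=
  (a * Q1 (a * u + b * v) (e * u + d * v) - e * P1 (a * u + b * v) (e * u + d * v)) / (a * d - b * e)
noncomputable def A2 (a d n u v : ℝ) : ℝ := d * P2 (a * u) (n * u ^ 2 + d * v) / (a * d)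
noncomputable def B2 (a d n u v : ℝ) : ℝ :=
  (a * Q2 (a * u) (n * u ^ 2 + d * v) - 2 * n * u * P2 (a * u) (n * u ^ 2 + d * v)) / (a * d)
noncomputable def A3 (a d n u v : ℝ) : ℝ := d * P3 (a * u) (n * u ^ 3 + d * v) / (a * d)
noncomputable def B3 (a d n u v : ℝ) : ℝ :=
  (a * Q3 (a * u) (n * u ^ 3 + d * v) - 3 * n * u ^ 2 * P3 (a * u) (n * u ^ 3 + d * v)) / (a * d)

theorem G1_eq (a b e d u v : ℝ) : B1 a b e d u v * u - A1 a b e d u v * v =
    4 * (e * u + d * v) ^ 4 * ((a * u + b * v) ^ 2 + (e * u + d * v) ^ 2) / (a * d - b * e) := by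
  unfold A1 B1 P1 Q1; ring

theorem G2_eq (a d n u v : ℝ) : B2 a d n u v * u - 2 * A2 a d n u v * v =
    7 * (a * u) ^ 2 * (n * u ^ 2 + d * v) ^ 2 * ((a * u) ^ 4 + (n * u ^ 2 + d * v) ^ 2) / (a * d) := by
  unfold A2 B2 P2 Q2; ring

theorem G3_eq (a d n u v : ℝ) : B3 a d n u v * u - 3 * A3 a d n u v * v =
    8 * (a * u) ^ 6 * ((a * u) ^ 6 + (n * u ^ 3 + d * v) ^ 2) / (a * d) := by
  unfold A3 B3 P3 Q3; ring

theorem lead_an {G : ℝ → ℝ} (h : ContDiff ℝ ⊤ G) : AnalyticOnNhd ℝ G Set.univ :=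
  fun _ _ => h.contDiffAt.analyticAt

theorem lead_polar {e d : ℝ} (h : e ≠ 0 ∨ d ≠ 0) :
    ∃ ρ θ : ℝ, 0 < ρ ∧ e = -(ρ * sin θ) ∧ d = ρ * cos θ := by
  have hz : (⟨d, -e⟩ : ℂ) ≠ 0 := fun h0 => by
    have h1 : d = 0 := congrArg Complex.re h0
    have h2 : -e = 0 := congrArg Complex.im h0
    rcases h with h | h
    · exact h (by linarith)
    · exact h h1
  refine ⟨‖(⟨d, -e⟩ : ℂ)‖, Complex.arg ⟨d, -e⟩, norm_pos_iff.2 hz, ?_, ?_⟩
  · rw [Complex.norm_mul_sin_arg]; simp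
  · rw [Complex.norm_mul_cos_arg]

theorem lead_id1 {X Y X' Y' J : ℝ} (hJ : J ≠ 0) (hY : Y ≠ 0) :
    (P1 X Y * Y' - Q1 X Y * X') / J / (4 * Y ^ 4 * (X ^ 2 + Y ^ 2) / J) -
      -(1 / 4) * (((X * X' + Y * Y') + (Y * X' - X * Y')) / (X ^ 2 + Y ^ 2)) =
      -(3 / 4) * (Y' / Y) := by
  have : X ^ 2 + Y ^ 2 ≠ 0 := by positivity
  unfold P1 Q1
  field_simp
  ring

theorem lead_id3 {X Y X' Y' J : ℝ} (hJ : J ≠ 0) (hX : X ≠ 0) :
    (P3 X Y * Y' - Q3 X Y * X') / J / (8 * X ^ 6 * (X ^ 6 + Y ^ 2) / J) -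
      -(1 / 8) * (((X ^ 3 * (3 * X ^ 2 * X') + -Y * -Y') + (-Y * (3 * X ^ 2 * X') - X ^ 3 * -Y')) /
        ((X ^ 3) ^ 2 + (-Y) ^ 2)) = -(5 / 8) * (X' / X) := by
  have h1 : X ^ 6 + Y ^ 2 ≠ 0 := by positivity
  have h2 : (X ^ 3) ^ 2 + (-Y) ^ 2 = X ^ 6 + Y ^ 2 := by ring
  rw [h2]
  unfold P3 Q3
  field_simp
  ring

theorem pv1 {a b e d σ : ℝ} (hσ : σ = 1 ∨ σ = -1) (hJ : 0 < σ * (a * d - b * e)) :
    PVD (fun φ => A1 a b e d (cos φ) (sin φ) * cos φ + B1 a b e d (cos φ) (sin φ) * sin φ)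
      (fun φ => B1 a b e d (cos φ) (sin φ) * cos φ - A1 a b e d (cos φ) (sin φ) * sin φ)
      (σ * π / 2) := by
  have hJ0 : a * d - b * e ≠ 0 := fun h => by rw [h, mul_zero] at hJ; exact lt_irrefl _ hJ
  obtain ⟨ρ, θ, hρ, he, hd⟩ := lead_polar (e := e) (d := d) (by
    by_contra hc
    rw [not_or, not_not, not_not] at hc
    exact hJ0 (by rw [hc.1, hc.2]; ring))
  have hY : ∀ φ, e * cos φ + d * sin φ = ρ * sin (φ - θ) := fun φ => by
    rw [he, hd, sin_sub]; ring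
  have hY' : ∀ φ, -(e * sin φ) + d * cos φ = ρ * cos (φ - θ) := fun φ => by
    rw [he, hd, cos_sub]; ring
  have hX : ∀ φ, a * cos φ + b * sin φ = (a * cos θ + b * sin θ) * cos (φ - θ) +
      (-(a * sin θ) + b * cos θ) * sin (φ - θ) := fun φ => by
    rw [sin_sub, cos_sub]
    linear_combination (-(a * cos φ + b * sin φ)) * sin_sq_add_cos_sq θ
  have ha1 : 0 < σ * (a * cos θ + b * sin θ) := by
    have h1 : σ * (a * d - b * e) = ρ * (σ * (a * cos θ + b * sin θ)) := by rw [he, hd]; ring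
    rw [h1] at hJ
    exact (mul_pos_iff_of_pos_left hρ).1 hJ
  have hσ2 : σ * σ = 1 := by rcases hσ with h | h <;> rw [h] <;> norm_num
  have hpos : ∀ φ, (a * cos φ + b * sin φ) ^ 2 + (e * cos φ + d * sin φ) ^ 2 ≠ 0 := by
    intro φ h0
    have h1 : a * cos φ + b * sin φ = 0 := by
      nlinarith [sq_nonneg (a * cos φ + b * sin φ), sq_nonneg (e * cos φ + d * sin φ)]
    have h2 : e * cos φ + d * sin φ = 0 := by
      nlinarith [sq_nonneg (a * cos φ + b * sin φ), sq_nonneg (e * cos φ + d * sin φ)]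
    have h3 : (a * d - b * e) * cos φ = 0 := by linear_combination d * h1 - b * h2
    have h4 : (a * d - b * e) * sin φ = 0 := by linear_combination a * h2 - e * h1
    have h5 := (mul_eq_zero.1 h3).resolve_left hJ0
    have h6 := (mul_eq_zero.1 h4).resolve_left hJ0
    have h7 := sin_sq_add_cos_sq φ
    rw [h5, h6] at h7
    norm_num at h7
  have hG : ∀ φ, B1 a b e d (cos φ) (sin φ) * cos φ - A1 a b e d (cos φ) (sin φ) * sin φ = 0 ↔
      sin (φ - θ) = 0 := fun φ => by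
    rw [G1_eq, div_eq_zero_iff, mul_eq_zero, mul_eq_zero, pow_eq_zero_iff (by norm_num)]
    have := hpos φ
    rw [hY φ] at this ⊢
    simp [hJ0, this, hρ.ne']
  have key : ∀ φ, sin (φ - θ) ≠ 0 →
      (A1 a b e d (cos φ) (sin φ) * cos φ + B1 a b e d (cos φ) (sin φ) * sin φ) /
        (B1 a b e d (cos φ) (sin φ) * cos φ - A1 a b e d (cos φ) (sin φ) * sin φ) -
      -(1 / 4) * ((((a * cos φ + b * sin φ) * (-(a * sin φ) + b * cos φ) +
        (e * cos φ + d * sin φ) * (-(e * sin φ) + d * cos φ)) +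
        ((e * cos φ + d * sin φ) * (-(a * sin φ) + b * cos φ) -
          (a * cos φ + b * sin φ) * (-(e * sin φ) + d * cos φ))) /
        ((a * cos φ + b * sin φ) ^ 2 + (e * cos φ + d * sin φ) ^ 2)) =
      -(3 / 4) * (cos (φ - θ) / sin (φ - θ)) := by
    intro φ hφ
    have h1 : A1 a b e d (cos φ) (sin φ) * cos φ + B1 a b e d (cos φ) (sin φ) * sin φ =
        (P1 (a * cos φ + b * sin φ) (e * cos φ + d * sin φ) * (-(e * sin φ) + d * cos φ) -
          Q1 (a * cos φ + b * sin φ) (e * cos φ + d * sin φ) * (-(a * sin φ) + b * cos φ)) /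
          (a * d - b * e) := by
      unfold A1 B1; ring
    rw [h1, G1_eq, lead_id1 hJ0 (by rw [hY]; exact mul_ne_zero hρ.ne' hφ), hY, hY',
      mul_div_mul_left _ _ hρ.ne']
  have hw := wind (f := fun φ => a * cos φ + b * sin φ) (g := fun φ => e * cos φ + d * sin φ)
    (f' := fun φ => -(a * sin φ) + b * cos φ) (g' := fun φ => -(e * sin φ) + d * cos φ)
    (σ := σ) (τ := σ) (θ := θ) hσ
    (fun φ => (((hasDerivAt_cos φ).const_mul a).add ((hasDerivAt_sin φ).const_mul b)).congr_deriv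
      (by ring))
    (fun φ => (((hasDerivAt_cos φ).const_mul e).add ((hasDerivAt_sin φ).const_mul d)).congr_deriv
      (by ring))
    (by fun_prop) (by fun_prop) (by simp) (by simp) (fun φ h => by
      have h7 := sin_sq_add_cos_sq (φ - θ)
      rw [hY] at h ⊢
      by_cases hs : sin (φ - θ) = 0
      · rw [hX, hs]
        rw [hs] at h7
        have e1 : σ * (((a * cos θ + b * sin θ) * cos (φ - θ) + (-(a * sin θ) + b * cos θ) * 0) *
            cos (φ - θ) + σ * (ρ * 0) * 0) = σ * (a * cos θ + b * sin θ) := by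
          linear_combination σ * (a * cos θ + b * sin θ) * h7
        rw [e1]
        exact ha1
      · have h8 : ρ * cos (φ - θ) = σ * (a * cos φ + b * sin φ) :=
          mul_right_cancel₀ hs (by linear_combination h)
        have e1 : σ * ((a * cos φ + b * sin φ) * cos (φ - θ) +
            σ * (ρ * sin (φ - θ)) * sin (φ - θ)) = ρ := by
          linear_combination (-cos (φ - θ)) * h8 + ρ * h7 + ρ * sin (φ - θ) ^ 2 * hσ2
        rw [e1]
        exact hρ)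
  refine ⟨by unfold A1 B1 P1 Q1; fun_prop, lead_an (by unfold A1 B1 P1 Q1; fun_prop),
    ⟨θ + π / 2, fun h => ?_⟩, fun φ => by simp, fun φ => by simp, θ,
    fun φ => -(1 / 4) * ((((a * cos φ + b * sin φ) * (-(a * sin φ) + b * cos φ) +
        (e * cos φ + d * sin φ) * (-(e * sin φ) + d * cos φ)) +
        ((e * cos φ + d * sin φ) * (-(a * sin φ) + b * cos φ) -
          (a * cos φ + b * sin φ) * (-(e * sin φ) + d * cos φ))) /
        ((a * cos φ + b * sin φ) ^ 2 + (e * cos φ + d * sin φ) ^ 2)),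
    continuous_const.mul (Continuous.div (by fun_prop) (by fun_prop) hpos), fun φ => by simp,
    ?_, fun ψ h => ?_, fun φ h => ?_⟩
  · have := (hG _).1 h
    simp at this
  · rw [intervalIntegral.integral_const_mul, hw]; ring
  · have h1 := (hG _).1 h
    refine (hG _).2 ?_
    rw [show 2 * θ - ψ - θ = -(ψ - θ) by ring, sin_neg, h1, neg_zero]
  · have h1 : sin (φ - θ) ≠ 0 := fun h0 => h ((hG _).2 h0)
    have e1 : 2 * θ - φ - θ = -(φ - θ) := by ring
    have h2 : sin (2 * θ - φ - θ) ≠ 0 := by rw [e1, sin_neg]; exact neg_ne_zero.2 h1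
    refine (key _ h2).trans (Eq.trans ?_ (congrArg Neg.neg (key φ h1)).symm)
    rw [e1, sin_neg, cos_neg, div_neg]; ring

theorem pv2 {a d : ℝ} (ha : a ≠ 0) (hd : d ≠ 0) (n : ℝ) :
    PVD (fun φ => A2 a d n (cos φ) (sin φ) * cos φ + B2 a d n (cos φ) (sin φ) * sin φ)
      (fun φ => B2 a d n (cos φ) (sin φ) * cos φ - 2 * A2 a d n (cos φ) (sin φ) * sin φ) 0 := by
  have hA : ∀ u v, A2 a d n (-u) v = A2 a d n u v := fun u v => by unfold A2 P2; ring
  have hB : ∀ u v, B2 a d n (-u) v = -B2 a d n u v := fun u v => by unfold B2 P2 Q2; ring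
  have e1 : ∀ φ : ℝ, 2 * (π / 2) - φ = π - φ := fun φ => by ring
  have hne : ∀ u v : ℝ, u ≠ 0 → n * u ^ 2 + d * v ≠ 0 →
      B2 a d n u v * u - 2 * A2 a d n u v * v ≠ 0 := fun u v hu hv => by
    rw [G2_eq]
    have : a * u ≠ 0 := mul_ne_zero ha hu
    positivity
  refine ⟨by unfold A2 B2 P2 Q2; fun_prop, lead_an (by unfold A2 B2 P2 Q2; fun_prop), ?_,
    fun φ => by simp, fun φ => by simp, π / 2, fun _ => 0, continuous_const, fun _ => rfl,
    by simp, fun ψ h => ?_, fun φ _ => ?_⟩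
  · have hc : cos 1 ≠ 0 := cos_one_pos.ne'
    have hs : sin 1 ≠ 0 := (sin_pos_of_pos_of_lt_pi one_pos (by linarith [pi_gt_three])).ne'
    by_cases h1 : n * cos 1 ^ 2 + d * sin 1 = 0
    · refine ⟨-1, hne _ _ (by rwa [cos_neg]) fun h2 => ?_⟩
      rw [cos_neg, sin_neg] at h2
      exact mul_ne_zero hd hs (by linarith)
    · exact ⟨1, hne _ _ hc h1⟩
  · simp only [e1, cos_pi_sub, sin_pi_sub, hA, hB] at h ⊢
    linarith
  · simp only [e1, cos_pi_sub, sin_pi_sub, hA, hB, sub_zero, neg_mul_neg]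
    rw [← neg_div]
    congr 1
    ring

theorem pv3 {a d σ : ℝ} (hσ : σ = 1 ∨ σ = -1) (hJ : 0 < σ * (a * d)) (n : ℝ) :
    PVD (fun φ => A3 a d n (cos φ) (sin φ) * cos φ + B3 a d n (cos φ) (sin φ) * sin φ)
      (fun φ => B3 a d n (cos φ) (sin φ) * cos φ - 3 * A3 a d n (cos φ) (sin φ) * sin φ)
      (-(σ * π / 4)) := by
  have hJ0 : a * d ≠ 0 := fun h => by rw [h, mul_zero] at hJ; exact lt_irrefl _ hJ
  have ha : a ≠ 0 := left_ne_zero_of_mul hJ0
  have hd : d ≠ 0 := right_ne_zero_of_mul hJ0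
  have hσ2 : σ * σ = 1 := by rcases hσ with h | h <;> rw [h] <;> norm_num
  have hpos : ∀ φ, (a * cos φ) ^ 6 + (n * cos φ ^ 3 + d * sin φ) ^ 2 ≠ 0 := by
    intro φ
    by_cases hc : cos φ = 0
    · have h7 := sin_sq_add_cos_sq φ
      have hs : sin φ ≠ 0 := fun h => by rw [hc, h] at h7; norm_num at h7
      have : n * cos φ ^ 3 + d * sin φ ≠ 0 := by rw [hc]; simp [hd, hs]
      positivity
    · positivity
  have hG : ∀ φ, B3 a d n (cos φ) (sin φ) * cos φ - 3 * A3 a d n (cos φ) (sin φ) * sin φ = 0 ↔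
      cos φ = 0 := fun φ => by
    rw [G3_eq, div_eq_zero_iff, mul_eq_zero, mul_eq_zero, pow_eq_zero_iff (by norm_num)]
    simp [hpos φ, ha, hd]
  have key : ∀ φ, cos φ ≠ 0 →
      (A3 a d n (cos φ) (sin φ) * cos φ + B3 a d n (cos φ) (sin φ) * sin φ) /
        (B3 a d n (cos φ) (sin φ) * cos φ - 3 * A3 a d n (cos φ) (sin φ) * sin φ) -
      -(1 / 8) * ((((a * cos φ) ^ 3 * (3 * (a * cos φ) ^ 2 * -(a * sin φ)) +
        -(n * cos φ ^ 3 + d * sin φ) * -(-(3 * n * cos φ ^ 2 * sin φ) + d * cos φ)) +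
        (-(n * cos φ ^ 3 + d * sin φ) * (3 * (a * cos φ) ^ 2 * -(a * sin φ)) -
          (a * cos φ) ^ 3 * -(-(3 * n * cos φ ^ 2 * sin φ) + d * cos φ))) /
        (((a * cos φ) ^ 3) ^ 2 + (-(n * cos φ ^ 3 + d * sin φ)) ^ 2)) =
      5 / 8 * (sin φ / cos φ) := by
    intro φ hφ
    have h1 : A3 a d n (cos φ) (sin φ) * cos φ + B3 a d n (cos φ) (sin φ) * sin φ =
        (P3 (a * cos φ) (n * cos φ ^ 3 + d * sin φ) * (-(3 * n * cos φ ^ 2 * sin φ) + d * cos φ) -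
          Q3 (a * cos φ) (n * cos φ ^ 3 + d * sin φ) * -(a * sin φ)) / (a * d) := by
      unfold A3 B3; ring
    rw [h1, G3_eq, lead_id3 hJ0 (mul_ne_zero ha hφ), neg_div, mul_div_mul_left _ _ ha]
    ring
  have hw := wind (f := fun φ => (a * cos φ) ^ 3) (g := fun φ => -(n * cos φ ^ 3 + d * sin φ))
    (f' := fun φ => 3 * (a * cos φ) ^ 2 * -(a * sin φ))
    (g' := fun φ => -(-(3 * n * cos φ ^ 2 * sin φ) + d * cos φ))
    (σ := -σ) (τ := a) (θ := 0) (by rcases hσ with h | h <;> rw [h] <;> norm_num)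
    (fun φ => (((hasDerivAt_cos φ).const_mul a).fun_pow 3).congr_deriv (by push_cast; ring))
    (fun φ => (((((hasDerivAt_cos φ).fun_pow 3).const_mul n).add
      ((hasDerivAt_sin φ).const_mul d)).neg).congr_deriv (by push_cast; ring))
    (by fun_prop) (by fun_prop) (by simp) (by simp) (fun φ h => by
      have h7 := sin_sq_add_cos_sq φ
      rw [sub_zero] at h ⊢
      by_cases hc : cos φ = 0
      · rw [hc] at h7 ⊢
        have e1 : a * ((a * 0) ^ 3 * 0 + -σ * -(n * 0 ^ 3 + d * sin φ) * sin φ) = σ * (a * d) := by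
          linear_combination σ * (a * d) * h7
        rw [e1]
        exact hJ
      · have h8 : n * cos φ ^ 3 + d * sin φ = σ * a ^ 3 * cos φ ^ 2 * sin φ :=
          mul_right_cancel₀ hc (by linear_combination -h)
        have e1 : a * ((a * cos φ) ^ 3 * cos φ + -σ * -(n * cos φ ^ 3 + d * sin φ) * sin φ) =
            a ^ 4 * cos φ ^ 2 := by
          rw [h8]
          linear_combination a ^ 4 * cos φ ^ 2 * h7 + a ^ 4 * cos φ ^ 2 * sin φ ^ 2 * hσ2
        rw [e1]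
        positivity)
  refine ⟨by unfold A3 B3 P3 Q3; fun_prop, lead_an (by unfold A3 B3 P3 Q3; fun_prop),
    ⟨0, fun h => ?_⟩, fun φ => by simp, fun φ => by simp, 0,
    fun φ => -(1 / 8) * ((((a * cos φ) ^ 3 * (3 * (a * cos φ) ^ 2 * -(a * sin φ)) +
        -(n * cos φ ^ 3 + d * sin φ) * -(-(3 * n * cos φ ^ 2 * sin φ) + d * cos φ)) +
        (-(n * cos φ ^ 3 + d * sin φ) * (3 * (a * cos φ) ^ 2 * -(a * sin φ)) -
          (a * cos φ) ^ 3 * -(-(3 * n * cos φ ^ 2 * sin φ) + d * cos φ))) /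
        (((a * cos φ) ^ 3) ^ 2 + (-(n * cos φ ^ 3 + d * sin φ)) ^ 2)),
    continuous_const.mul (Continuous.div (by fun_prop) (by fun_prop) fun φ => ?_),
    fun φ => by simp, ?_, fun ψ h => ?_, fun φ h => ?_⟩
  · have := (hG _).1 h
    simp at this
  · rw [← pow_mul, neg_sq]
    exact hpos φ
  · rw [intervalIntegral.integral_const_mul, hw]; ring
  · refine (hG _).2 ?_
    rw [mul_zero, zero_sub, cos_neg]
    exact (hG _).1 h
  · have h1 : cos φ ≠ 0 := fun h0 => h ((hG _).2 h0)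
    have e1 : 2 * 0 - φ = -φ := by ring
    have h2 : cos (2 * 0 - φ) ≠ 0 := by rw [e1, cos_neg]; exact h1
    refine (key _ h2).trans (Eq.trans ?_ (congrArg Neg.neg (key φ h1)).symm)
    rw [e1, sin_neg, cos_neg, neg_div]; ring

end Pool.Agent.Lib.MP_296844_an.ND
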