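import Pool.Agent.Lib.MP_296844_an.PV

set_option autoImplicit false

/-! Principal values: an odd singular part plus a continuous part. -/

namespace Pool.Agent.Lib.MP_296844_an.ND

open Filter Topology MeasureTheory Real

/-- `F / G` is a continuous periodic function with integral `ξ` plus a part odd about `φ0` -/
structure PVD (F G : ℝ → ℝ) (ξ : ℝ) : Prop where
  cF : Continuous F
  aG : AnalyticOnNhd ℝ G Set.univ
  ne : ∃ φ, G φ ≠ 0
  pF : Function.Periodic F (2 * π)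
  pG : Function.Periodic G (2 * π)
  ex : ∃ (φ0 : ℝ) (g : ℝ → ℝ), Continuous g ∧ Function.Periodic g (2 * π) ∧
    (∫ φ in (0 : ℝ)..2 * π, g φ) = ξ ∧ (∀ ψ, G ψ = 0 → G (2 * φ0 - ψ) = 0) ∧
    ∀ φ, G φ ≠ 0 →
      F (2 * φ0 - φ) / G (2 * φ0 - φ) - g (2 * φ0 - φ) = -(F φ / G φ - g φ)

theorem PVD.hasPV {F G : ℝ → ℝ} {ξ : ℝ} (h : PVD F G ξ) : HasPV F G ξ := by
  obtain ⟨cF, aG, ⟨φ1, hφ1⟩, pF, pG, φ0, g, cg, pg, hξ, sG, sF⟩ := h
  have cG : Continuous G := continuousOn_univ.1 aG.continuousOn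
  have hcl : ∀ ε : ℝ, IsClosed {φ : ℝ | ∀ ψ, G ψ = 0 → ε ≤ |φ - ψ|} := by
    intro ε
    have : {φ : ℝ | ∀ ψ, G ψ = 0 → ε ≤ |φ - ψ|} =
        ⋂ ψ ∈ {ψ | G ψ = 0}, {φ : ℝ | ε ≤ |φ - ψ|} := by
      ext φ; simp
    rw [this]
    exact isClosed_biInter fun ψ _ => isClosed_le continuous_const (by fun_prop)
  have hfin : {φ ∈ Set.Icc 0 (2 * π) | G φ = 0}.Finite := by
    obtain ⟨y, hy, hy'⟩ := pG.exists_mem_Ico₀ (by positivity) φ1
    have h1 := AnalyticOnNhd.preimage_zero_mem_codiscreteWithin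
      (aG.mono (Set.subset_univ (Set.Icc 0 (2 * π)))) (hy' ▸ hφ1)
      (Set.Ico_subset_Icc_self hy) (isConnected_Icc (by positivity))
    have h2 := isCompact_Icc.finite_sdiff_of_mem_codiscreteWithin h1
    refine h2.subset ?_
    intro φ hφ
    exact ⟨hφ.1, by simpa using hφ.2⟩
  have hne : ∀ ε > 0, ∀ φ : ℝ, (∀ ψ, G ψ = 0 → ε ≤ |φ - ψ|) → G φ ≠ 0 := by
    intro ε hε φ hφ h0
    have := hφ φ h0
    simp only [sub_self, abs_zero] at this
    linarith
  have hint : ∀ ε > 0, IntegrableOn (fun φ => F φ / G φ)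
      {φ ∈ Set.Icc 0 (2 * π) | ∀ ψ, G ψ = 0 → ε ≤ |φ - ψ|} := by
    intro ε hε
    apply ContinuousOn.integrableOn_compact (isCompact_Icc.inter_right (hcl ε))
    exact cF.continuousOn.div cG.continuousOn fun φ hφ => hne ε hε φ hφ.2
  refine ⟨hfin, hint, ?_⟩
  have key : ∀ ε > 0, ∫ φ in {φ ∈ Set.Icc 0 (2 * π) | ∀ ψ, G ψ = 0 → ε ≤ |φ - ψ|},
      (F φ / G φ - g φ) = 0 := by
    intro ε hε
    set S := {φ : ℝ | ∀ ψ, G ψ = 0 → ε ≤ |φ - ψ|} with hS
    set k : ℝ → ℝ := S.indicator (fun φ => F φ / G φ - g φ) with hk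
    have e1 : ∫ φ in {φ ∈ Set.Icc 0 (2 * π) | ∀ ψ, G ψ = 0 → ε ≤ |φ - ψ|}, (F φ / G φ - g φ) =
        ∫ φ in (0 : ℝ)..0 + 2 * π, k φ := by
      rw [zero_add, intervalIntegral.integral_of_le (by positivity),
        ← integral_Icc_eq_integral_Ioc, hk, setIntegral_indicator (hcl ε).measurableSet]
      rfl
    have pk : Function.Periodic k (2 * π) := by
      intro φ
      have : φ + 2 * π ∈ S ↔ φ ∈ S := by
        constructor
        · intro h ψ hψ
          have := h (ψ + 2 * π) (by rw [pG ψ, hψ])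
          rwa [add_sub_add_right_eq_sub] at this
        · intro h ψ hψ
          have := h (ψ - 2 * π) (by rw [pG.sub_eq ψ, hψ])
          rwa [show φ - (ψ - 2 * π) = φ + 2 * π - ψ by ring] at this
      by_cases h : φ ∈ S
      · rw [hk, Set.indicator_of_mem h, Set.indicator_of_mem (this.2 h), pF φ, pG φ, pg φ]
      · rw [hk, Set.indicator_of_notMem h, Set.indicator_of_notMem (fun h' => h (this.1 h'))]
    have sk : ∀ φ, k (2 * φ0 - φ) = - k φ := by
      intro φ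
      have imp : ∀ φ, φ ∈ S → 2 * φ0 - φ ∈ S := by
        intro φ h ψ hψ
        have := h (2 * φ0 - ψ) (sG ψ hψ)
        rwa [show φ - (2 * φ0 - ψ) = -(2 * φ0 - φ - ψ) by ring, abs_neg] at this
      by_cases h : φ ∈ S
      · rw [hk, Set.indicator_of_mem h, Set.indicator_of_mem (imp φ h), sF φ (hne ε hε φ h)]
      · rw [hk, Set.indicator_of_notMem h, Set.indicator_of_notMem, neg_zero]
        intro h'
        have := imp _ h'
        rw [sub_sub_cancel] at this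
        exact h this
    rw [e1, pk.intervalIntegral_add_eq 0 (φ0 - π)]
    have e2 := intervalIntegral.integral_comp_sub_left (a := φ0 - π) (b := φ0 - π + 2 * π) k
      (2 * φ0)
    simp only [sk, intervalIntegral.integral_neg] at e2
    rw [show 2 * φ0 - (φ0 - π + 2 * π) = φ0 - π by ring,
      show 2 * φ0 - (φ0 - π) = φ0 - π + 2 * π by ring] at e2
    linarith
  have hgI : IntegrableOn g (Set.Icc 0 (2 * π)) := cg.continuousOn.integrableOn_Icc
  have lim : Tendsto (fun ε : ℝ => ∫ φ in Set.Icc 0 (2 * π),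
      {φ : ℝ | ∀ ψ, G ψ = 0 → ε ≤ |φ - ψ|}.indicator g φ) (𝓝[>] 0)
      (𝓝 (∫ φ in Set.Icc 0 (2 * π), g φ)) := by
    refine tendsto_integral_filter_of_dominated_convergence (fun φ => ‖g φ‖)
      (Eventually.of_forall fun ε => ?_) (Eventually.of_forall fun ε => ?_) hgI.norm ?_
    · exact hgI.aestronglyMeasurable.indicator (hcl ε).measurableSet
    · exact Eventually.of_forall fun φ => norm_indicator_le_norm_self g φ
    · rw [ae_restrict_iff' measurableSet_Icc]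
      filter_upwards [hfin.countable.ae_notMem volume] with φ hφ hφI
      have h0 : G φ ≠ 0 := fun h0 => hφ ⟨hφI, h0⟩
      obtain ⟨δ, hδ, hδ'⟩ := Metric.eventually_nhds_iff.1 (cG.continuousAt.eventually_ne h0)
      refine tendsto_const_nhds.congr' ?_
      filter_upwards [Ioo_mem_nhdsGT hδ] with ε hε
      refine (Set.indicator_of_mem ?_ g).symm
      intro ψ hψ
      by_contra hlt
      rw [not_le] at hlt
      refine hδ' (y := ψ) ?_ hψ
      rw [Real.dist_eq, abs_sub_comm]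
      exact hlt.trans hε.2
  have e0 : ∫ φ in Set.Icc 0 (2 * π), g φ = ξ := by
    rw [← hξ, intervalIntegral.integral_of_le (by positivity), integral_Icc_eq_integral_Ioc]
  rw [e0] at lim
  refine lim.congr' ?_
  filter_upwards [self_mem_nhdsWithin] with ε hε
  have hε' : 0 < ε := hε
  have h1 := key ε hε'
  rw [integral_sub (hint ε hε') (hgI.mono_set fun φ hφ => hφ.1), sub_eq_zero] at h1
  rw [h1, setIntegral_indicator (hcl ε).measurableSet]
  rfl

theorem PVD.swap {F G : ℝ → ℝ} {ξ : ℝ} (h : PVD F G ξ) :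
    PVD (fun φ => F (π / 2 - φ)) (fun φ => -G (π / 2 - φ)) (-ξ) := by
  obtain ⟨cF, aG, ⟨φ1, hφ1⟩, pF, pG, φ0, g, cg, pg, hξ, sG, sF⟩ := h
  have e : ∀ ψ : ℝ, π / 2 - (2 * (π / 2 - φ0) - ψ) = 2 * φ0 - (π / 2 - ψ) := fun ψ => by ring
  refine ⟨by fun_prop, fun x _ => ?_, ⟨π / 2 - φ1, ?_⟩, pF.const_sub _, fun x => ?_,
    π / 2 - φ0, fun φ => -g (π / 2 - φ), by fun_prop, fun x => ?_, ?_, fun ψ hψ => ?_,
    fun φ hφ => ?_⟩
  · have h1 : AnalyticAt ℝ (fun φ : ℝ => π / 2 - φ) x := analyticAt_const.sub analyticAt_id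
    exact ((aG _ (Set.mem_univ _)).comp h1).neg
  · rw [sub_sub_cancel]
    exact neg_ne_zero.2 hφ1
  · exact congrArg Neg.neg (pG.const_sub (π / 2) x)
  · exact congrArg Neg.neg (pg.const_sub (π / 2) x)
  · rw [intervalIntegral.integral_neg, intervalIntegral.integral_comp_sub_left, ← hξ]
    have h1 := pg.intervalIntegral_add_eq (π / 2 - 2 * π) 0
    rw [zero_add, sub_add_cancel] at h1
    rw [sub_zero, h1]
  · rw [e, sG _ (neg_eq_zero.1 hψ), neg_zero]
  · have h1 := sF _ (neg_ne_zero.1 hφ)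
    beta_reduce
    rw [e, div_neg, div_neg]
    linarith

/-- the winding number of the loop `f + i g` is `σ` -/
theorem wind {f g f' g' : ℝ → ℝ} {σ τ θ : ℝ} (hσ : σ = 1 ∨ σ = -1)
    (hf : ∀ φ, HasDerivAt f (f' φ) φ) (hg : ∀ φ, HasDerivAt g (g' φ) φ)
    (cf : Continuous f') (cg : Continuous g')
    (pf : f (2 * π) = f 0) (pg : g (2 * π) = g 0)
    (hs : ∀ φ, g φ * cos (φ - θ) = σ * f φ * sin (φ - θ) →
      0 < τ * (f φ * cos (φ - θ) + σ * g φ * sin (φ - θ))) :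
    (∫ φ in (0 : ℝ)..2 * π,
      ((f φ * f' φ + g φ * g' φ) + (g φ * f' φ - f φ * g' φ)) / (f φ ^ 2 + g φ ^ 2)) =
      -(2 * π * σ) := by
  obtain ⟨t, ht, hs'⟩ : ∃ t : ℝ, t ≠ 0 ∧ ∀ φ, g φ * cos (φ - θ) = σ * f φ * sin (φ - θ) →
      0 < t * (f φ * cos (φ - θ) + σ * g φ * sin (φ - θ)) := by
    by_cases h0 : τ = 0
    · refine ⟨1, one_ne_zero, fun φ hφ => ?_⟩
      have h1 := hs φ hφ
      rw [h0, zero_mul] at h1
      exact absurd h1 (lt_irrefl _)
    · exact ⟨τ, h0, hs⟩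
  have hσ2 : σ ^ 2 = 1 := by rcases hσ with rfl | rfl <;> norm_num
  let u : ℝ → ℝ := fun φ => t * (f φ * cos (φ - θ) + σ * g φ * sin (φ - θ))
  let v : ℝ → ℝ := fun φ => t * (g φ * cos (φ - θ) - σ * f φ * sin (φ - θ))
  let u' : ℝ → ℝ := fun φ => t * (f' φ * cos (φ - θ) - f φ * sin (φ - θ) +
    (σ * g' φ * sin (φ - θ) + σ * g φ * cos (φ - θ)))
  let v' : ℝ → ℝ := fun φ => t * (g' φ * cos (φ - θ) - g φ * sin (φ - θ) -
    (σ * f' φ * sin (φ - θ) + σ * f φ * cos (φ - θ)))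
  have hc : ∀ φ, HasDerivAt (fun φ => cos (φ - θ)) (-sin (φ - θ)) φ := fun φ => by
    simpa using ((hasDerivAt_id φ).sub_const θ).cos
  have hsn : ∀ φ, HasDerivAt (fun φ => sin (φ - θ)) (cos (φ - θ)) φ := fun φ => by
    simpa using ((hasDerivAt_id φ).sub_const θ).sin
  have hu : ∀ φ, HasDerivAt u (u' φ) φ := fun φ =>
    (((((hf φ).fun_mul (hc φ)).fun_add
      (((hg φ).const_mul σ).fun_mul (hsn φ))).const_mul t)).congr_deriv (by simp only [u']; ring)
  have hv : ∀ φ, HasDerivAt v (v' φ) φ := fun φ =>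
    (((((hg φ).fun_mul (hc φ)).fun_sub
      (((hf φ).const_mul σ).fun_mul (hsn φ))).const_mul t)).congr_deriv (by simp only [v']; ring)
  let w : ℝ → ℂ := fun φ => (u φ : ℂ) + (v φ : ℂ) * Complex.I
  have hw : ∀ φ, HasDerivAt w ((u' φ : ℂ) + (v' φ : ℂ) * Complex.I) φ := fun φ =>
    (hu φ).ofReal_comp.fun_add ((hv φ).ofReal_comp.mul_const Complex.I)
  have wre : ∀ φ, (w φ).re = u φ := fun φ => by simp [w]
  have wim : ∀ φ, (w φ).im = v φ := fun φ => by simp [w]
  have hsl : ∀ φ, w φ ∈ Complex.slitPlane := by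
    intro φ
    rw [Complex.mem_slitPlane_iff, wre, wim]
    by_cases h0 : v φ = 0
    · left
      refine hs' φ ?_
      have h1 := (mul_eq_zero.1 h0).resolve_left ht
      linarith
    · exact Or.inr h0
  have hN : ∀ φ, u φ * u φ + v φ * v φ = t ^ 2 * (f φ ^ 2 + g φ ^ 2) := by
    intro φ
    have h1 := cos_sq_add_sin_sq (φ - θ)
    simp only [u, v]
    linear_combination t ^ 2 * (f φ ^ 2 + g φ ^ 2) * h1 +
      t ^ 2 * (f φ ^ 2 + g φ ^ 2) * sin (φ - θ) ^ 2 * hσ2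
  have hD : ∀ φ, f φ ^ 2 + g φ ^ 2 ≠ 0 := by
    intro φ h0
    have h1 := hN φ
    rw [h0, mul_zero] at h1
    have h2 := Complex.slitPlane_ne_zero (hsl φ)
    apply h2
    rw [← Complex.normSq_eq_zero, Complex.normSq_apply, wre, wim, h1]
  have hH : ∀ φ, HasDerivAt
      (fun φ => (Complex.log (w φ)).re - (Complex.log (w φ)).im - σ * φ)
      (((f φ * f' φ + g φ * g' φ) + (g φ * f' φ - f φ * g' φ)) / (f φ ^ 2 + g φ ^ 2)) φ := by
    intro φ
    have h1 := (hw φ).clog_real (hsl φ)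
    have h2 : HasDerivAt (fun φ => (Complex.log (w φ)).re)
        (((u' φ : ℂ) + (v' φ : ℂ) * Complex.I) / w φ).re φ :=
      Complex.reCLM.hasFDerivAt.comp_hasDerivAt φ h1
    have h3 : HasDerivAt (fun φ => (Complex.log (w φ)).im)
        (((u' φ : ℂ) + (v' φ : ℂ) * Complex.I) / w φ).im φ :=
      Complex.imCLM.hasFDerivAt.comp_hasDerivAt φ h1
    have h4 : HasDerivAt (fun φ : ℝ => σ * φ) σ φ := by
      simpa using (hasDerivAt_id φ).const_mul σ
    refine ((h2.fun_sub h3).fun_sub h4).congr_deriv ?_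
    have a1 : ((u' φ : ℂ) + (v' φ : ℂ) * Complex.I).re = u' φ := by simp
    have a2 : ((u' φ : ℂ) + (v' φ : ℂ) * Complex.I).im = v' φ := by simp
    rw [Complex.div_re, Complex.div_im, Complex.normSq_apply, wre, wim, a1, a2, hN]
    have h5 := cos_sq_add_sin_sq (φ - θ)
    have n1 : u' φ * u φ + v' φ * v φ = t ^ 2 * (f φ * f' φ + g φ * g' φ) := by
      simp only [u, v, u', v']
      rcases hσ with rfl | rfl
      · linear_combination t ^ 2 * (f φ * f' φ + g φ * g' φ) * h5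
      · linear_combination t ^ 2 * (f φ * f' φ + g φ * g' φ) * h5
    have n2 : v' φ * u φ - u' φ * v φ =
        t ^ 2 * (f φ * g' φ - g φ * f' φ - σ * (f φ ^ 2 + g φ ^ 2)) := by
      simp only [u, v, u', v']
      rcases hσ with rfl | rfl
      · linear_combination t ^ 2 * (f φ * g' φ - g φ * f' φ - (f φ ^ 2 + g φ ^ 2)) * h5
      · linear_combination t ^ 2 * (f φ * g' φ - g φ * f' φ + (f φ ^ 2 + g φ ^ 2)) * h5
    rw [← add_div, ← sub_div, n1, n2]
    have h6 := hD φ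
    field_simp
    ring
  have cf0 : Continuous f := continuous_iff_continuousAt.2 fun φ => (hf φ).continuousAt
  have cg0 : Continuous g := continuous_iff_continuousAt.2 fun φ => (hg φ).continuousAt
  have hcont : Continuous fun φ =>
      ((f φ * f' φ + g φ * g' φ) + (g φ * f' φ - f φ * g' φ)) / (f φ ^ 2 + g φ ^ 2) :=
    Continuous.div (by fun_prop) (by fun_prop) hD
  rw [intervalIntegral.integral_eq_sub_of_hasDerivAt (fun φ _ => hH φ)
    (hcont.intervalIntegrable _ _)]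
  have hw0 : w (2 * π) = w 0 := by
    have c1 : cos (2 * π - θ) = cos (0 - θ) := by
      rw [cos_two_pi_sub, zero_sub, cos_neg]
    have c2 : sin (2 * π - θ) = sin (0 - θ) := by
      rw [sin_two_pi_sub, zero_sub, sin_neg]
    simp only [w, u, v, pf, pg, c1, c2]
  rw [hw0]
  ring

end Pool.Agent.Lib.MP_296844_an.ND
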