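import Pool.Agent.Lib.MP_296844_an.ND.Defs
import Pool.Agent.Lib.MP_296844_an.ND.PVal

set_option autoImplicit false

/-! One edge of the Newton diagram, read from weighted scaling limits. -/

namespace Pool.Agent.Lib.MP_296844_an.ND

open Filter Topology Real Finset

/-- the lowest `(p,q)`-part of `W` is `(Pl, Ql)` of degree `r`, with principal value `ξ` -/
structure LB (W : ℝ × ℝ → ℝ × ℝ) (p q r : ℕ) (Pl Ql : ℝ → ℝ → ℝ) (ξ : ℝ) : Prop where
  hp : 0 < p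
  hq : 0 < q
  hc : Nat.Coprime p q
  cP : ∀ u, Continuous (fun v => Pl u v)
  cQ : ∀ v, Continuous (fun u => Ql u v)
  h1 : ∀ u v, Tendsto (fun t : ℝ => (W (t ^ p * u, t ^ q * v)).1 / t ^ (p + r)) (𝓝[>] 0)
      (𝓝 (Pl u v))
  h2 : ∀ u v, Tendsto (fun t : ℝ => (W (t ^ p * u, t ^ q * v)).2 / t ^ (q + r)) (𝓝[>] 0)
      (𝓝 (Ql u v))
  pv : PVD (fun φ => Pl (cos φ) (sin φ) * cos φ + Ql (cos φ) (sin φ) * sin φ)
    (fun φ => p * Ql (cos φ) (sin φ) * cos φ - q * Pl (cos φ) (sin φ) * sin φ) ξ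

/-- the edge has the endpoints `V0`, `V1`, where `p b - q a` takes the values `g0`, `g1` -/
structure LE (W : ℝ × ℝ → ℝ × ℝ) (p q r : ℕ) (Pl Ql : ℝ → ℝ → ℝ) (ξ : ℝ)
    (V0 V1 : ℕ × ℕ) (g0 g1 : ℝ) : Prop extends LB W p q r Pl Ql ξ where
  e0 : p * V0.1 + q * V0.2 = p + q + r
  e1 : p * V1.1 + q * V1.2 = p + q + r
  ne : V0 ≠ V1
  f0 : ∃ f : ℝ → ℝ, Continuous f ∧ f 0 = g0 ∧
    ∀ u, p * Ql u 1 * u - q * Pl u 1 * 1 = u ^ V0.1 * f u
  f1 : ∃ f : ℝ → ℝ, Continuous f ∧ f 0 = g1 ∧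
    ∀ v, p * Ql 1 v * 1 - q * Pl 1 v * v = v ^ V1.2 * f v
  n0 : g0 ≠ 0
  n1 : g1 ≠ 0

/-- the field with the two coordinates exchanged -/
def sw (W : ℝ × ℝ → ℝ × ℝ) (z : ℝ × ℝ) : ℝ × ℝ := (W z.swap).swap

theorem sw_sw (W : ℝ × ℝ → ℝ × ℝ) : sw (sw W) = W := by
  funext z; simp [sw]

theorem LE.swap {W : ℝ × ℝ → ℝ × ℝ} {p q r : ℕ} {Pl Ql : ℝ → ℝ → ℝ} {ξ : ℝ}
    {V0 V1 : ℕ × ℕ} {g0 g1 : ℝ} (h : LE W p q r Pl Ql ξ V0 V1 g0 g1) :
    LE (sw W) q p r (fun u v => Ql v u) (fun u v => Pl v u) (-ξ) V1.swap V0.swap (-g1) (-g0) := by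
  obtain ⟨f0, c0, v0, k0⟩ := h.f0
  obtain ⟨f1, c1, v1, k1⟩ := h.f1
  have e0 := h.e0
  have e1 := h.e1
  refine ⟨⟨h.hq, h.hp, h.hc.symm, h.cQ, h.cP, fun u v => h.h2 v u, fun u v => h.h1 v u, ?_⟩,
    ?_, ?_, fun e => h.ne (Prod.swap_injective e).symm,
    ⟨fun u => -f1 u, c1.neg, by simp only [v1], fun u => ?_⟩,
    ⟨fun u => -f0 u, c0.neg, by simp only [v0], fun u => ?_⟩, neg_ne_zero.2 h.n1,
    neg_ne_zero.2 h.n0⟩
  · have h1 := h.pv.swap
    simp only [cos_pi_div_two_sub, sin_pi_div_two_sub] at h1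
    have a1 : (fun φ => Ql (sin φ) (cos φ) * cos φ + Pl (sin φ) (cos φ) * sin φ) =
        fun φ => Pl (sin φ) (cos φ) * sin φ + Ql (sin φ) (cos φ) * cos φ := by
      funext φ; ring
    have a2 : (fun φ => (q : ℝ) * Pl (sin φ) (cos φ) * cos φ - p * Ql (sin φ) (cos φ) * sin φ) =
        fun φ => -((p : ℝ) * Ql (sin φ) (cos φ) * sin φ - q * Pl (sin φ) (cos φ) * cos φ) := by
      funext φ; ring
    rw [a1, a2]
    exact h1
  · simp only [Prod.fst_swap, Prod.snd_swap]; omega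
  · simp only [Prod.fst_swap, Prod.snd_swap]; omega
  · simp only [Prod.fst_swap]
    linear_combination -k1 u
  · simp only [Prod.snd_swap]
    linear_combination -k0 u

/-- an edge on the level of coefficients -/
structure EO (a b : ℕ × ℕ → ℝ) (p q : ℕ) (ξ : ℝ) (V0 V1 : ℕ × ℕ) (g0 g1 : ℝ) : Prop where
  hp : 0 < p
  hq : 0 < q
  hc : Nat.Coprime p q
  low : ∀ n : ℕ × ℕ, (a n ≠ 0 ∨ b n ≠ 0) → level a b p q ≤ p * n.1 + q * n.2
  e0 : p * V0.1 + q * V0.2 = level a b p q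
  e1 : p * V1.1 + q * V1.2 = level a b p q
  ne : V0 ≠ V1
  v0 : p * b V0 - q * a V0 = g0
  v1 : p * b V1 - q * a V1 = g1
  n0 : g0 ≠ 0
  n1 : g1 ≠ 0
  pv : HasPV (angF a b p q) (angG a b p q) ξ

theorem coef_of_factor {s : Finset (ℕ × ℕ)} {κ : ℕ × ℕ → ℕ} {c : ℕ × ℕ → ℝ} {V : ℕ × ℕ}
    (hV : V ∈ s) (hκ : ∀ n ∈ s, κ n = κ V → n = V) {f : ℝ → ℝ} (hf : Continuous f)
    (h : ∀ u : ℝ, ∑ n ∈ s, c n * u ^ κ n = u ^ κ V * f u) : c V = f 0 := by
  classical
  have h1 := one_dim (c := fun k => ∑ n ∈ s.filter (fun n => κ n = k), c n)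
    (φ := fun u => u ^ κ V * f u) (m := κ V) (l := f 0) ?_ ?_
  · rw [← h1.2, Finset.sum_eq_single V]
    · intro n hn hne
      exact absurd (hκ n (mem_filter.1 hn).1 (mem_filter.1 hn).2) hne
    · intro h2
      exact (h2 (mem_filter.2 ⟨hV, rfl⟩)).elim
  · refine Eventually.of_forall fun t => ?_
    rw [← h t, ← Finset.sum_fiberwise_of_maps_to (t := s.image κ) (g := κ)
      (fun n hn => mem_image_of_mem κ hn)]
    have h3 : ∀ k, ∑ n ∈ s.filter (fun n => κ n = k), c n * t ^ κ n =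
        (∑ n ∈ s.filter (fun n => κ n = k), c n) * t ^ k := by
      intro k
      rw [Finset.sum_mul]
      exact Finset.sum_congr rfl fun n hn => by rw [(mem_filter.1 hn).2]
    simp only [h3]
    apply hasSum_sum_of_ne_finset_zero
    intro k hk
    rw [Finset.filter_eq_empty_iff.2 (fun n hn e => hk (mem_image.2 ⟨n, hn, e⟩)), sum_empty,
      zero_mul]
  · refine ((hf.tendsto 0).mono_left nhdsWithin_le_nhds).congr' ?_
    filter_upwards [self_mem_nhdsWithin] with t ht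
    have ht' : t ≠ 0 := ne_of_gt ht
    field_simp

theorem LE.ok {W : ℝ × ℝ → ℝ × ℝ} {p q r : ℕ} {Pl Ql : ℝ → ℝ → ℝ} {ξ : ℝ}
    {V0 V1 : ℕ × ℕ} {g0 g1 : ℝ} (h : LE W p q r Pl Ql ξ V0 V1 g0 g1) {a b : ℕ × ℕ → ℝ}
    (hE : IsExpansion W a b) :
    EO a b p q ξ V0 V1 g0 g1 ∧ leadP a b p q = Pl ∧ leadQ a b p q = Ql := by
  obtain ⟨ha0, hb0, hE⟩ := hE
  have hp := h.hp
  have hq := h.hq
  have e0 := h.e0
  have e1 := h.e1
  set m := p + q + r with hm
  have sa : ∀ (n : ℕ × ℕ) (x y : ℝ), a n * x ^ n.1 * y ^ (n.2 - 1) * y = a n * x ^ n.1 * y ^ n.2 := by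
    rintro ⟨i, j⟩ x y
    rcases j with _ | j
    · simp [ha0]
    · simp [pow_succ, mul_assoc]
  have sb : ∀ (n : ℕ × ℕ) (x y : ℝ), b n * x ^ (n.1 - 1) * y ^ n.2 * x = b n * x ^ n.1 * y ^ n.2 := by
    rintro ⟨i, j⟩ x y
    rcases i with _ | i
    · simp [hb0]
    · simp only [Nat.add_sub_cancel, pow_succ]; ring
  have wa := weighted (g := fun z => (W z).1 * z.2) (c := a) (m := m) hp hq
    (hE.mono fun z hz => by simpa only [sa] using hz.1.mul_right z.2)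
    (G := fun u v => Pl u v * v) (fun u v => by
      refine ((h.h1 u v).mul_const v).congr' ?_
      filter_upwards [self_mem_nhdsWithin] with t ht
      have ht' : t ≠ 0 := ne_of_gt ht
      simp only [hm, pow_add]
      field_simp)
  have wb := weighted (g := fun z => (W z).2 * z.1) (c := b) (m := m) hp hq
    (hE.mono fun z hz => by simpa only [sb] using hz.2.mul_right z.1)
    (G := fun u v => Ql u v * u) (fun u v => by
      refine ((h.h2 u v).mul_const u).congr' ?_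
      filter_upwards [self_mem_nhdsWithin] with t ht
      have ht' : t ≠ 0 := ne_of_gt ht
      simp only [hm, pow_add]
      field_simp)
  have hlow : ∀ n : ℕ × ℕ, (a n ≠ 0 ∨ b n ≠ 0) → m ≤ p * n.1 + q * n.2 := by
    intro n hn
    by_contra hlt
    rw [not_le] at hlt
    rcases hn with hn | hn
    · exact hn (wa.1 n hlt)
    · exact hn (wb.1 n hlt)
  have hG : ∀ u v : ℝ, ∑ n ∈ fib p q m, (p * b n - q * a n) * (u ^ n.1 * v ^ n.2) =
      p * Ql u v * u - q * Pl u v * v := by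
    intro u v
    rw [mul_assoc, mul_assoc, ← wa.2 u v, ← wb.2 u v, Finset.mul_sum, Finset.mul_sum,
      ← Finset.sum_sub_distrib]
    exact Finset.sum_congr rfl fun n _ => by ring
  have v0 : p * b V0 - q * a V0 = g0 := by
    obtain ⟨f, cf, f0, hf⟩ := h.f0
    rw [← f0]
    refine coef_of_factor (s := fib p q m) (κ := fun n => n.1) (c := fun n => p * b n - q * a n)
      ((mem_fib hp hq _).2 e0) (fun n hn e => ?_) cf (fun u => ?_)
    · have h1 := (mem_fib hp hq _).1 hn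
      have e' : n.1 = V0.1 := e
      rw [e'] at h1
      exact Prod.ext e' (Nat.eq_of_mul_eq_mul_left hq (by omega))
    · rw [← hf u, ← hG u 1]
      simp only [one_pow, mul_one]
  have v1 : p * b V1 - q * a V1 = g1 := by
    obtain ⟨f, cf, f0, hf⟩ := h.f1
    rw [← f0]
    refine coef_of_factor (s := fib p q m) (κ := fun n => n.2) (c := fun n => p * b n - q * a n)
      ((mem_fib hp hq _).2 e1) (fun n hn e => ?_) cf (fun u => ?_)
    · have h1 := (mem_fib hp hq _).1 hn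
      have e' : n.2 = V1.2 := e
      rw [e'] at h1
      exact Prod.ext (Nat.eq_of_mul_eq_mul_left hp (by omega)) e'
    · rw [← hf u, ← hG 1 u]
      simp only [one_pow, one_mul]
  have hA : a V0 ≠ 0 ∨ b V0 ≠ 0 := by
    by_contra hc
    rw [not_or, not_not, not_not] at hc
    apply h.n0
    rw [← v0, hc.1, hc.2]
    ring
  have hlev : level a b p q = m := by
    apply le_antisymm
    · exact Nat.sInf_le ⟨V0, hA, e0⟩
    · unfold level
      refine le_csInf ⟨m, V0, hA, e0⟩ ?_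
      rintro k ⟨n, hn, rfl⟩
      exact hlow n hn
  have hd : Dense ({0}ᶜ : Set ℝ) := dense_compl_singleton 0
  have lP : leadP a b p q = Pl := by
    funext u
    have e : ∀ v, leadP a b p q u v = ∑ n ∈ fib p q m, a n * u ^ n.1 * v ^ (n.2 - 1) := by
      intro v
      unfold leadP
      rw [hlev, coe_fib hp hq, finsum_mem_coe_finset]
    rw [funext e]
    refine Continuous.ext_on hd (by fun_prop) (h.cP u) ?_
    intro v hv
    apply mul_right_cancel₀ (show v ≠ 0 from hv)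
    rw [← wa.2 u v, Finset.sum_mul]
    simp only [sa]
  have lQ : leadQ a b p q = Ql := by
    funext u v
    have e : ∀ u, leadQ a b p q u v = ∑ n ∈ fib p q m, b n * u ^ (n.1 - 1) * v ^ n.2 := by
      intro u
      unfold leadQ
      rw [hlev, coe_fib hp hq, finsum_mem_coe_finset]
    rw [e]
    refine congrFun (Continuous.ext_on hd
      (f := fun u => ∑ n ∈ fib p q m, b n * u ^ (n.1 - 1) * v ^ n.2) (by fun_prop) (h.cQ v) ?_) u
    intro u hu
    apply mul_right_cancel₀ (show u ≠ 0 from hu)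
    rw [← wb.2 u v, Finset.sum_mul]
    simp only [sb]
  refine ⟨⟨hp, hq, h.hc, hlev ▸ hlow, hlev ▸ e0, hlev ▸ e1, h.ne, v0, v1, h.n0, h.n1, ?_⟩, lP, lQ⟩
  unfold angF angG
  rw [lP, lQ]
  exact h.pv.hasPV

theorem LE.trans {W : ℝ × ℝ → ℝ × ℝ} {p q r : ℕ} {Pl Ql : ℝ → ℝ → ℝ} {ξ : ℝ}
    {V0 : ℕ × ℕ} {i : ℕ} {g0 g1 : ℝ} (h : LE W p q r Pl Ql ξ V0 (i, 0) g0 g1) :
    ∀ᶠ x in 𝓝[>] (0 : ℝ), (W (x, 0)).2 ≠ 0 := by
  obtain ⟨f, -, f0, hf⟩ := h.f1
  have h1 : Ql 1 0 ≠ 0 := by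
    intro h0
    have h2 := hf 0
    rw [h0, f0] at h2
    apply h.n1
    simpa using h2.symm
  apply eventually_ne_of_scale (f := fun x => (W (x, 0)).2) h.hp h1 (k := q + r)
  simpa using h.h2 1 0

end Pool.Agent.Lib.MP_296844_an.ND
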