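import Pool.Agent.Lib.MP_296844_an.Chart
import Pool.Agent.Lib.MP_296844_an.ND.Newt
import Pool.Agent.Lib.MP_296844_an.ND.Lead

set_option autoImplicit false

/-! Weighted scaling limits of the field in a chart. -/

namespace Pool.Agent.Lib.MP_296844_an.ND

open Filter Topology Real Asymptotics

/-- `(x, y)` is a local analytic change of coordinates with linear part `(a u + b v, e u + d v)`
that carries `W` to the centre field -/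
structure Pre (x y : ℝ × ℝ → ℝ) (W : ℝ × ℝ → ℝ × ℝ) (a b e d : ℝ) : Prop where
  ax : AnalyticAt ℝ x (0, 0)
  ay : AnalyticAt ℝ y (0, 0)
  x0 : x (0, 0) = 0
  y0 : y (0, 0) = 0
  ha : fderiv ℝ x (0, 0) (1, 0) = a
  hb : fderiv ℝ x (0, 0) (0, 1) = b
  he : fderiv ℝ y (0, 0) (1, 0) = e
  hd : fderiv ℝ y (0, 0) (0, 1) = d
  hJ : a * d - b * e ≠ 0
  hW : ∀ᶠ w in 𝓝 ((0, 0) : ℝ × ℝ), fderiv ℝ x w (W w) = (centerField (x w, y w)).1 ∧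
    fderiv ℝ y w (W w) = (centerField (x w, y w)).2

theorem Pre.swap {x y : ℝ × ℝ → ℝ} {W : ℝ × ℝ → ℝ × ℝ} {a b e d : ℝ} (h : Pre x y W a b e d) :
    Pre (fun w => x w.swap) (fun w => y w.swap) (sw W) b a d e := by
  let S : (ℝ × ℝ) →L[ℝ] (ℝ × ℝ) := (ContinuousLinearEquiv.prodComm ℝ ℝ ℝ).toContinuousLinearMap
  have hS : ∀ w : ℝ × ℝ, HasFDerivAt (fun w : ℝ × ℝ => w.swap) S w := fun w => S.hasFDerivAt
  have aS : AnalyticAt ℝ (fun w : ℝ × ℝ => w.swap) (0, 0) := S.analyticAt _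
  have key : ∀ {g : ℝ × ℝ → ℝ} {w : ℝ × ℝ}, AnalyticAt ℝ g w.swap → ∀ v : ℝ × ℝ,
      fderiv ℝ (fun w => g w.swap) w v = fderiv ℝ g w.swap v.swap := by
    intro g w hg v
    have h1 : HasFDerivAt (fun w : ℝ × ℝ => g w.swap) _ w :=
      HasFDerivAt.comp (f := fun w : ℝ × ℝ => w.swap) w hg.differentiableAt.hasFDerivAt (hS w)
    rw [h1.fderiv]
    rfl
  refine ⟨AnalyticAt.comp (f := fun w : ℝ × ℝ => w.swap) h.ax aS,
    AnalyticAt.comp (f := fun w : ℝ × ℝ => w.swap) h.ay aS, h.x0, h.y0,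
    (key (w := (0, 0)) h.ax _).trans h.hb, (key (w := (0, 0)) h.ax _).trans h.ha,
    (key (w := (0, 0)) h.ay _).trans h.hd, (key (w := (0, 0)) h.ay _).trans h.he,
    fun e0 => h.hJ (by linear_combination -e0), ?_⟩
  have ht : Tendsto (fun w : ℝ × ℝ => w.swap) (𝓝 (0, 0)) (𝓝 (0, 0)) := aS.continuousAt
  filter_upwards [ht.eventually h.hW, ht.eventually h.ax.eventually_analyticAt,
    ht.eventually h.ay.eventually_analyticAt] with w h1 h2 h3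
  rw [key h2, key h3]
  simpa only [sw, Prod.swap_swap] using h1

theorem axis_an {g : ℝ × ℝ → ℝ} (hg : AnalyticAt ℝ g (0, 0)) :
    AnalyticAt ℝ (fun s : ℝ => g (s, 0)) 0 :=
  AnalyticAt.comp (f := fun s : ℝ => ((s, 0) : ℝ × ℝ)) hg (by fun_prop)

theorem axis_der {g : ℝ × ℝ → ℝ} {s : ℝ} (hg : AnalyticAt ℝ g (s, 0)) :
    HasDerivAt (fun s : ℝ => g (s, 0)) (fderiv ℝ g (s, 0) (1, 0)) s :=
  HasFDerivAt.comp_hasDerivAt (f := fun s : ℝ => ((s, 0) : ℝ × ℝ)) s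
    hg.differentiableAt.hasFDerivAt ((hasDerivAt_id s).prodMk (hasDerivAt_const _ _))

theorem axis_fac {g : ℝ × ℝ → ℝ} (hg : AnalyticAt ℝ g (0, 0)) (h0 : g (0, 0) = 0) :
    ∃ η : ℝ → ℝ, AnalyticAt ℝ η 0 ∧ η 0 = fderiv ℝ g (0, 0) (1, 0) ∧ ∀ s, g (s, 0) = s * η s := by
  obtain ⟨η, h1, h2, h3⟩ := exists_factor (axis_an hg) h0
  exact ⟨η, h1, h2.trans (axis_der hg).deriv, h3⟩

theorem der_an {g : ℝ × ℝ → ℝ} (hg : AnalyticAt ℝ g (0, 0)) (e : ℝ × ℝ) :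
    AnalyticAt ℝ (fun w => fderiv ℝ g w e) (0, 0) :=
  ((ContinuousLinearMap.apply ℝ ℝ e).analyticAt _).comp hg.fderiv

theorem lim_diff {g : ℝ × ℝ → ℝ} (hg : AnalyticAt ℝ g (0, 0)) {l : ℕ} (hl : 0 < l) (u v : ℝ) :
    Tendsto (fun t : ℝ => (g (t ^ 1 * u, t ^ l * v) - g (t ^ 1 * u, 0)) / t ^ l) (𝓝[>] 0)
      (𝓝 (fderiv ℝ g (0, 0) (0, 1) * v)) := by
  have h0 := tendsto_scale one_pos hl u 0
  simp only [mul_zero] at h0
  have h1 := hg.hasStrictFDerivAt.isLittleO.comp_tendsto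
    ((tendsto_scale one_pos hl u v).prodMk_nhds h0)
  have h2 : (fun t : ℝ => ((t ^ 1 * u, t ^ l * v) : ℝ × ℝ) - (t ^ 1 * u, 0)) =O[𝓝 0]
      fun t : ℝ => t ^ l := by
    simp only [Prod.mk_sub_mk, sub_self, sub_zero]
    apply IsBigO.prod_left (isBigO_zero _ _)
    simpa [mul_comm] using (isBigO_refl (fun t : ℝ => t ^ l) (𝓝 0)).const_mul_left v
  have h4 := ((h1.trans_isBigO h2).tendsto_div_nhds_zero).mono_left
    (nhdsWithin_le_nhds (s := Set.Ioi 0))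
  have h5 := h4.add_const (fderiv ℝ g (0, 0) (0, 1) * v)
  rw [zero_add] at h5
  refine h5.congr' ?_
  filter_upwards [self_mem_nhdsWithin] with t ht
  have ht' : t ≠ 0 := ne_of_gt ht
  simp only [Function.comp, Prod.mk_sub_mk, sub_self, sub_zero]
  rw [clm_apply (fderiv ℝ g (0, 0)) 0 (t ^ l * v)]
  field_simp
  ring

theorem lim_val {g : ℝ × ℝ → ℝ} (hg : AnalyticAt ℝ g (0, 0)) {l k j : ℕ} (hl : 0 < l)
    (e : l = k + j) {γ : ℝ → ℝ} (hγ : ContinuousAt γ 0)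
    (h : ∀ᶠ s in 𝓝 (0 : ℝ), g (s, 0) = s ^ k * γ s) (u v : ℝ) :
    Tendsto (fun t : ℝ => g (t ^ 1 * u, t ^ l * v) / t ^ k) (𝓝[>] 0)
      (𝓝 (γ 0 * u ^ k + fderiv ℝ g (0, 0) (0, 1) * v * 0 ^ j)) := by
  have h0 : Tendsto (fun t : ℝ => t ^ 1 * u) (𝓝[>] 0) (𝓝 0) := by
    simpa using tendsto_id_gt.mul_const u
  have h1 := ((hγ.tendsto.comp h0).mul_const (u ^ k)).add
    ((lim_diff hg hl u v).mul (tendsto_id_gt.pow j))
  refine h1.congr' ?_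
  filter_upwards [self_mem_nhdsWithin, h0.eventually h] with t ht h2
  have ht' : t ≠ 0 := ne_of_gt ht
  simp only [Function.comp, h2]
  generalize g (t ^ 1 * u, t ^ l * v) = G
  rw [e]
  field_simp
  ring

theorem Pre.lim {x y : ℝ × ℝ → ℝ} {W : ℝ × ℝ → ℝ × ℝ} {a b e d : ℝ} (h : Pre x y W a b e d)
    {k r : ℕ} {η : ℝ → ℝ} (hη : AnalyticAt ℝ η 0) (hy : ∀ s, y (s, 0) = s ^ (k + 1) * η s)
    {H1 H2 : ℝ × ℝ × ℝ → ℝ} (c1 : Continuous H1) (c2 : Continuous H2)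
    (hH : ∀ t X Y : ℝ, centerField (t * X, t ^ (k + 1) * Y) =
      (t ^ (1 + r) * H1 (t, X, Y), t ^ (k + 1 + r) * H2 (t, X, Y))) (u v : ℝ) :
    Tendsto (fun t : ℝ => (W (t ^ 1 * u, t ^ (k + 1) * v)).1 / t ^ (1 + r)) (𝓝[>] 0)
      (𝓝 ((d * H1 (0, a * u + b * v * 0 ^ k, η 0 * u ^ (k + 1) + d * v) -
        b * 0 ^ k * H2 (0, a * u + b * v * 0 ^ k, η 0 * u ^ (k + 1) + d * v)) / (a * d - b * e))) ∧
    Tendsto (fun t : ℝ => (W (t ^ 1 * u, t ^ (k + 1) * v)).2 / t ^ (k + 1 + r)) (𝓝[>] 0)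
      (𝓝 ((a * H2 (0, a * u + b * v * 0 ^ k, η 0 * u ^ (k + 1) + d * v) -
        (k + 1) * η 0 * u ^ k * H1 (0, a * u + b * v * 0 ^ k, η 0 * u ^ (k + 1) + d * v)) /
          (a * d - b * e))) := by
  have hl : 0 < k + 1 := Nat.succ_pos k
  obtain ⟨x1, ax1, vx1, ex1⟩ := axis_fac h.ax h.x0
  have lX := lim_val h.ax hl (add_comm k 1) ax1.continuousAt
    (Eventually.of_forall fun s => by rw [ex1 s, pow_one]) u v
  have lY := lim_val h.ay hl (add_zero (k + 1)).symm hη.continuousAt (Eventually.of_forall hy) u v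
  have lU := lim_val (der_an h.ay (1, 0)) hl rfl (γ := fun s => (k + 1) * η s + s * deriv η s)
    (by have := hη.continuousAt; have := hη.deriv.continuousAt; fun_prop) (by
      have c0 : Tendsto (fun s : ℝ => ((s, 0) : ℝ × ℝ)) (𝓝 0) (𝓝 (0, 0)) :=
        (by fun_prop : Continuous fun s : ℝ => ((s, 0) : ℝ × ℝ)).tendsto 0
      filter_upwards [c0.eventually h.ay.eventually_analyticAt, hη.eventually_analyticAt]
        with s h1 h2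
      have h3 := axis_der h1
      rw [funext hy] at h3
      rw [h3.unique ((hasDerivAt_pow (k + 1) s).mul h2.differentiableAt.hasDerivAt)]
      simp only [Nat.add_sub_cancel]
      push_cast
      ring) u v
  have la := lim_cont (der_an h.ax (1, 0)) one_pos hl u v
  have lb := lim_cont (der_an h.ax (0, 1)) one_pos hl u v
  have le := lim_cont (der_an h.ay (1, 0)) one_pos hl u v
  have ld := lim_cont (der_an h.ay (0, 1)) one_pos hl u v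
  simp only [vx1, h.ha, h.hb, h.he, h.hd, pow_zero, mul_one, zero_mul, add_zero,
    show (0 : ℝ) ^ 1 = 0 from pow_one 0, show u ^ 1 = u from pow_one u, mul_zero] at lX lY lU la lb le ld
  have lT := tendsto_id_gt.prodMk_nhds (lX.prodMk_nhds lY)
  have l1 := (c1.tendsto _).comp lT
  have l2 := (c2.tendsto _).comp lT
  have lJ := (la.mul ld).sub (lb.mul le)
  have hw := ((tendsto_scale one_pos hl u v).mono_left
    (nhdsWithin_le_nhds (s := Set.Ioi 0))).eventually h.hW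
  have ev : ∀ᶠ t in 𝓝[>] (0 : ℝ), _ :=
    (lJ.eventually_ne h.hJ).and (hw.and (self_mem_nhdsWithin (s := Set.Ioi (0 : ℝ))))
  have cl : ∀ (D : (ℝ × ℝ) →L[ℝ] ℝ) (z : ℝ × ℝ), D z = D (1, 0) * z.1 + D (0, 1) * z.2 :=
    fun D z => clm_apply D z.1 z.2
  constructor
  · refine (((ld.mul l1).sub ((lb.mul (tendsto_id_gt.pow k)).mul l2)).div lJ h.hJ).congr' ?_
    filter_upwards [ev] with t ⟨hJ, ⟨k1, k2⟩, ht⟩
    have ht' : t ≠ 0 := ne_of_gt ht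
    simp only [Function.comp, Pi.div_apply]
    generalize ((t ^ 1 * u, t ^ (k + 1) * v) : ℝ × ℝ) = w at *
    have k3 := hH t (x w / t ^ 1) (y w / t ^ (k + 1))
    rw [show t * (x w / t ^ 1) = x w by field_simp,
      show t ^ (k + 1) * (y w / t ^ (k + 1)) = y w by field_simp] at k3
    rw [cl, k3] at k1 k2
    rw [div_eq_div_iff hJ (pow_ne_zero _ ht')]
    linear_combination (fderiv ℝ x w (0, 1)) * k2 - (fderiv ℝ y w (0, 1)) * k1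
  · refine (((la.mul l2).sub (lU.mul l1)).div lJ h.hJ).congr' ?_
    filter_upwards [ev] with t ⟨hJ, ⟨k1, k2⟩, ht⟩
    have ht' : t ≠ 0 := ne_of_gt ht
    simp only [Function.comp, Pi.div_apply]
    generalize ((t ^ 1 * u, t ^ (k + 1) * v) : ℝ × ℝ) = w at *
    have k3 := hH t (x w / t ^ 1) (y w / t ^ (k + 1))
    rw [show t * (x w / t ^ 1) = x w by field_simp,
      show t ^ (k + 1) * (y w / t ^ (k + 1)) = y w by field_simp] at k3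
    rw [cl, k3] at k1 k2
    rw [div_eq_div_iff hJ (pow_ne_zero _ ht')]
    have k4 : fderiv ℝ y w (1, 0) / t ^ k * t ^ k = fderiv ℝ y w (1, 0) := by field_simp
    linear_combination (fderiv ℝ y w (1, 0)) * k1 - (fderiv ℝ x w (1, 0)) * k2 -
      t ^ (1 + r) * H1 (t, x w / t ^ 1, y w / t ^ (k + 1)) * k4

/-- if the first derivative of `y` along the axis vanishes, `y (s, 0)` has the factor `s ^ 2` -/
theorem Pre.fac {x y : ℝ × ℝ → ℝ} {W : ℝ × ℝ → ℝ × ℝ} {a b d : ℝ} (h : Pre x y W a b 0 d) :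
    ∃ η : ℝ → ℝ, AnalyticAt ℝ η 0 ∧ ∀ s, y (s, 0) = s ^ 2 * η s := by
  obtain ⟨y1, a1, v1, e1⟩ := axis_fac h.ay h.y0
  obtain ⟨y2, a2, -, e2⟩ := exists_factor a1 (v1.trans h.he)
  exact ⟨y2, a2, fun s => by rw [e1 s, e2 s]; ring⟩

theorem Pre.lim1 {x y : ℝ × ℝ → ℝ} {W : ℝ × ℝ → ℝ × ℝ} {a b e d : ℝ} (h : Pre x y W a b e d)
    (u v : ℝ) :
    Tendsto (fun t : ℝ => (W (t ^ 1 * u, t ^ 1 * v)).1 / t ^ (1 + 4)) (𝓝[>] 0)
      (𝓝 (A1 a b e d u v)) ∧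
    Tendsto (fun t : ℝ => (W (t ^ 1 * u, t ^ 1 * v)).2 / t ^ (1 + 4)) (𝓝[>] 0)
      (𝓝 (B1 a b e d u v)) := by
  obtain ⟨η, a1, v1, e1⟩ := axis_fac h.ay h.y0
  have h1 := h.lim (k := 0) (r := 4) a1 (fun s => by rw [e1 s]; ring)
    (H1 := fun ⟨t, X, Y⟩ => -((2 * (Y ^ 2 + t ^ 2 * X ^ 4) ^ 2 + (X * Y) ^ 2 -
      (Y ^ 2 + t ^ 2 * X ^ 4) * (X * Y)) * (2 * Y) +
      ((Y ^ 2 + t ^ 2 * X ^ 4) ^ 2 + (Y ^ 2 + t ^ 2 * X ^ 4) * (X * Y)) * X))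
    (H2 := fun ⟨t, X, Y⟩ => (2 * (Y ^ 2 + t ^ 2 * X ^ 4) ^ 2 + (X * Y) ^ 2 -
      (Y ^ 2 + t ^ 2 * X ^ 4) * (X * Y)) * (4 * t ^ 2 * X ^ 3) +
      ((Y ^ 2 + t ^ 2 * X ^ 4) ^ 2 + (Y ^ 2 + t ^ 2 * X ^ 4) * (X * Y)) * Y)
    (by fun_prop) (by fun_prop)
    (fun t X Y => Prod.ext (by simp only [centerField]; ring) (by simp only [centerField]; ring))
    u v
  rw [v1, h.he] at h1
  refine ⟨h1.1.trans_eq (congrArg 𝓝 ?_), h1.2.trans_eq (congrArg 𝓝 ?_)⟩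
  · simp only [A1, P1, Q1]; ring
  · simp only [B1, P1, Q1]; push_cast; ring

theorem Pre.lim2 {x y : ℝ × ℝ → ℝ} {W : ℝ × ℝ → ℝ × ℝ} {a b d : ℝ} (h : Pre x y W a b 0 d)
    {η : ℝ → ℝ} (hη : AnalyticAt ℝ η 0) (hy : ∀ s, y (s, 0) = s ^ 2 * η s) (u v : ℝ) :
    Tendsto (fun t : ℝ => (W (t ^ 1 * u, t ^ 2 * v)).1 / t ^ (1 + 7)) (𝓝[>] 0)
      (𝓝 (A2 a d (η 0) u v)) ∧
    Tendsto (fun t : ℝ => (W (t ^ 1 * u, t ^ 2 * v)).2 / t ^ (2 + 7)) (𝓝[>] 0)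
      (𝓝 (B2 a d (η 0) u v)) := by
  have h1 := h.lim (k := 1) (r := 7) hη hy
    (H1 := fun ⟨t, X, Y⟩ => -((2 * t ^ 2 * (X ^ 4 + Y ^ 2) ^ 2 + (X * Y) ^ 2 -
      t * (X ^ 4 + Y ^ 2) * (X * Y)) * (2 * Y) +
      (t * (X ^ 4 + Y ^ 2) ^ 2 + (X ^ 4 + Y ^ 2) * (X * Y)) * X))
    (H2 := fun ⟨t, X, Y⟩ => (2 * t ^ 2 * (X ^ 4 + Y ^ 2) ^ 2 + (X * Y) ^ 2 -
      t * (X ^ 4 + Y ^ 2) * (X * Y)) * (4 * X ^ 3) +
      (t * (X ^ 4 + Y ^ 2) ^ 2 + (X ^ 4 + Y ^ 2) * (X * Y)) * Y)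
    (by fun_prop) (by fun_prop)
    (fun t X Y => Prod.ext (by simp only [centerField]; ring) (by simp only [centerField]; ring))
    u v
  refine ⟨h1.1.trans_eq (congrArg 𝓝 ?_), h1.2.trans_eq (congrArg 𝓝 ?_)⟩
  · simp only [A2, P2]; ring
  · simp only [B2, P2, Q2]; push_cast; ring

theorem Pre.lim3 {x y : ℝ × ℝ → ℝ} {W : ℝ × ℝ → ℝ × ℝ} {a b d : ℝ} (h : Pre x y W a b 0 d)
    {η : ℝ → ℝ} (hη : AnalyticAt ℝ η 0) (hy : ∀ s, y (s, 0) = s ^ 3 * η s) (u v : ℝ) :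
    Tendsto (fun t : ℝ => (W (t ^ 1 * u, t ^ 3 * v)).1 / t ^ (1 + 8)) (𝓝[>] 0)
      (𝓝 (A3 a d (η 0) u v)) ∧
    Tendsto (fun t : ℝ => (W (t ^ 1 * u, t ^ 3 * v)).2 / t ^ (3 + 8)) (𝓝[>] 0)
      (𝓝 (B3 a d (η 0) u v)) := by
  have h1 := h.lim (k := 2) (r := 8) hη hy
    (H1 := fun ⟨t, X, Y⟩ => -((2 * (X ^ 4 + t ^ 2 * Y ^ 2) ^ 2 + (X * Y) ^ 2 -
      (X ^ 4 + t ^ 2 * Y ^ 2) * (X * Y)) * (2 * t ^ 2 * Y) +
      ((X ^ 4 + t ^ 2 * Y ^ 2) ^ 2 + (X ^ 4 + t ^ 2 * Y ^ 2) * (X * Y)) * X))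
    (H2 := fun ⟨t, X, Y⟩ => (2 * (X ^ 4 + t ^ 2 * Y ^ 2) ^ 2 + (X * Y) ^ 2 -
      (X ^ 4 + t ^ 2 * Y ^ 2) * (X * Y)) * (4 * X ^ 3) +
      ((X ^ 4 + t ^ 2 * Y ^ 2) ^ 2 + (X ^ 4 + t ^ 2 * Y ^ 2) * (X * Y)) * Y)
    (by fun_prop) (by fun_prop)
    (fun t X Y => Prod.ext (by simp only [centerField]; ring) (by simp only [centerField]; ring))
    u v
  refine ⟨h1.1.trans_eq (congrArg 𝓝 ?_), h1.2.trans_eq (congrArg 𝓝 ?_)⟩
  · simp only [A3, P3]; ring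
  · simp only [B3, P3, Q3]; push_cast; ring

end Pool.Agent.Lib.MP_296844_an.ND
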