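import Pool.Agent.Lib.MP_296844_an.ND.Data
import Pool.Agent.Lib.MP_296844_an.ND.Lim

set_option autoImplicit false

/-! The edges of the Newton diagram in every chart. -/

namespace Pool.Agent.Lib.MP_296844_an.ND

open Filter Topology Real

variable {x y : ℝ × ℝ → ℝ} {W : ℝ × ℝ → ℝ × ℝ} {a b e d σ : ℝ}

theorem Pre.lb1 (h : Pre x y W a b e d) (hσ : σ = 1 ∨ σ = -1) (hJ : 0 < σ * (a * d - b * e)) :
    LB W 1 1 4 (A1 a b e d) (B1 a b e d) (σ * π / 2) := by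
  refine ⟨one_pos, one_pos, by norm_num, fun u => ?_, fun v => ?_, fun u v => (h.lim1 u v).1,
    fun u v => (h.lim1 u v).2, ?_⟩
  · unfold A1 P1 Q1; fun_prop
  · unfold B1 P1 Q1; fun_prop
  · simpa only [Nat.cast_one, one_mul] using pv1 hσ hJ

theorem Pre.ad (h : Pre x y W a b 0 d) : a ≠ 0 ∧ d ≠ 0 := by
  have := h.hJ
  rw [mul_zero, sub_zero] at this
  exact mul_ne_zero_iff.1 this

theorem Pre.lb2 (h : Pre x y W a b 0 d) {η : ℝ → ℝ} (hη : AnalyticAt ℝ η 0)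
    (hy : ∀ s, y (s, 0) = s ^ 2 * η s) : LB W 1 2 7 (A2 a d (η 0)) (B2 a d (η 0)) 0 := by
  refine ⟨one_pos, two_pos, by norm_num, fun u => ?_, fun v => ?_,
    fun u v => (h.lim2 hη hy u v).1, fun u v => (h.lim2 hη hy u v).2, ?_⟩
  · unfold A2 P2; fun_prop
  · unfold B2 P2 Q2; fun_prop
  · simpa only [Nat.cast_one, one_mul, Nat.cast_ofNat] using pv2 h.ad.1 h.ad.2 (η 0)

theorem Pre.lb3 (h : Pre x y W a b 0 d) (hσ : σ = 1 ∨ σ = -1) (hJ : 0 < σ * (a * d))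
    {η : ℝ → ℝ} (hη : AnalyticAt ℝ η 0) (hy : ∀ s, y (s, 0) = s ^ 3 * η s) :
    LB W 1 3 8 (A3 a d (η 0)) (B3 a d (η 0)) (-(σ * π / 4)) := by
  refine ⟨one_pos, three_pos, by norm_num, fun u => ?_, fun v => ?_,
    fun u v => (h.lim3 hη hy u v).1, fun u v => (h.lim3 hη hy u v).2, ?_⟩
  · unfold A3 P3; fun_prop
  · unfold B3 P3 Q3; fun_prop
  · simpa only [Nat.cast_one, one_mul, Nat.cast_ofNat] using pv3 hσ hJ (η 0)

theorem Pre.le1G (h : Pre x y W a b e d) (hσ : σ = 1 ∨ σ = -1) (hJ : 0 < σ * (a * d - b * e))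
    (he : e ≠ 0) (hd : d ≠ 0) : ∃ g0 g1,
    LE W 1 1 4 (A1 a b e d) (B1 a b e d) (σ * π / 2) (0, 6) (6, 0) g0 g1 := by
  have hJ' := h.hJ
  refine ⟨4 * d ^ 4 * (b ^ 2 + d ^ 2) / (a * d - b * e), 4 * e ^ 4 * (a ^ 2 + e ^ 2) / (a * d - b * e),
    h.lb1 hσ hJ, rfl, rfl, by decide,
    ⟨fun u => 4 * (e * u + d) ^ 4 * ((a * u + b) ^ 2 + (e * u + d) ^ 2) / (a * d - b * e),
      by fun_prop, by simp, fun u => ?_⟩,
    ⟨fun v => 4 * (e + d * v) ^ 4 * ((a + b * v) ^ 2 + (e + d * v) ^ 2) / (a * d - b * e),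
      by fun_prop, by simp, fun v => ?_⟩, by positivity, by positivity⟩
  · have := G1_eq a b e d u 1
    simp only [Nat.cast_one, one_mul, mul_one, pow_zero] at this ⊢
    exact this
  · have := G1_eq a b e d 1 v
    simp only [Nat.cast_one, one_mul, mul_one, pow_zero] at this ⊢
    exact this

theorem Pre.le1X (h : Pre x y W a b 0 d) (hσ : σ = 1 ∨ σ = -1) (hJ : 0 < σ * (a * d)) : ∃ g0,
    LE W 1 1 4 (A1 a b 0 d) (B1 a b 0 d) (σ * π / 2) (0, 6) (2, 4) g0 (4 * (a * d ^ 3)) := by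
  obtain ⟨ha, hd⟩ := h.ad
  refine ⟨4 * d ^ 3 * (b ^ 2 + d ^ 2) / a, h.lb1 hσ (by simpa using hJ), rfl, rfl, by decide,
    ⟨fun u => 4 * d ^ 3 * ((a * u + b) ^ 2 + d ^ 2) / a, by fun_prop, by simp, fun u => ?_⟩,
    ⟨fun v => 4 * d ^ 3 * ((a + b * v) ^ 2 + (d * v) ^ 2) / a, by fun_prop, ?_, fun v => ?_⟩,
    by positivity, by positivity⟩
  · have := G1_eq a b 0 d u 1
    simp only [Nat.cast_one, one_mul, mul_one, pow_zero, zero_mul, mul_zero, sub_zero,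
      zero_add] at this ⊢
    rw [this]; field_simp
  · simp only [mul_zero, add_zero]; field_simp; ring
  · have := G1_eq a b 0 d 1 v
    simp only [Nat.cast_one, one_mul, mul_one, mul_zero, sub_zero, zero_add] at this ⊢
    rw [this]; field_simp

theorem Pre.f02 (h : Pre x y W a b 0 d) (n : ℝ) : ∃ f : ℝ → ℝ, Continuous f ∧
    f 0 = 7 * (a * d ^ 3) ∧
    ∀ u, (1 : ℕ) * B2 a d n u 1 * u - (2 : ℕ) * A2 a d n u 1 * 1 = u ^ 2 * f u := by
  obtain ⟨ha, hd⟩ := h.ad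
  refine ⟨fun u => 7 * a * (n * u ^ 2 + d) ^ 2 * ((a * u) ^ 4 + (n * u ^ 2 + d) ^ 2) / d,
    by fun_prop, ?_, fun u => ?_⟩
  · field_simp; ring
  · have := G2_eq a d n u 1
    simp only [Nat.cast_one, one_mul, mul_one, Nat.cast_ofNat] at this ⊢
    rw [this]; field_simp

theorem Pre.le2a (h : Pre x y W a b 0 d) {η : ℝ → ℝ} (hη : AnalyticAt ℝ η 0)
    (hy : ∀ s, y (s, 0) = s ^ 2 * η s) (h0 : η 0 ≠ 0) : ∃ g1,
    LE W 1 2 7 (A2 a d (η 0)) (B2 a d (η 0)) 0 (2, 4) (10, 0) (7 * (a * d ^ 3)) g1 := by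
  obtain ⟨ha, hd⟩ := h.ad
  refine ⟨7 * a * η 0 ^ 2 * (a ^ 4 + η 0 ^ 2) / d, h.lb2 hη hy, rfl, rfl, by decide, h.f02 _,
    ⟨fun v => 7 * a * (η 0 + d * v) ^ 2 * (a ^ 4 + (η 0 + d * v) ^ 2) / d, by fun_prop, by simp,
      fun v => ?_⟩, by positivity, by positivity⟩
  have := G2_eq a d (η 0) 1 v
  simp only [Nat.cast_one, one_mul, mul_one, Nat.cast_ofNat, one_pow, pow_zero] at this ⊢
  rw [this]; field_simp

theorem Pre.le2b (h : Pre x y W a b 0 d) {η : ℝ → ℝ} (hη : AnalyticAt ℝ η 0)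
    (hy : ∀ s, y (s, 0) = s ^ 2 * η s) (h0 : η 0 = 0) :
    LE W 1 2 7 (A2 a d 0) (B2 a d 0) 0 (2, 4) (6, 2) (7 * (a * d ^ 3)) (7 * (a ^ 5 * d)) := by
  obtain ⟨ha, hd⟩ := h.ad
  have hb := h.lb2 hη hy
  rw [h0] at hb
  refine ⟨hb, rfl, rfl, by decide, h.f02 _,
    ⟨fun v => 7 * a * d * (a ^ 4 + (d * v) ^ 2), by fun_prop, by ring, fun v => ?_⟩,
    by positivity, by positivity⟩
  have := G2_eq a d 0 1 v
  simp only [Nat.cast_one, one_mul, mul_one, Nat.cast_ofNat, zero_mul, zero_add] at this ⊢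
  rw [this]; field_simp

theorem Pre.le3 (h : Pre x y W a b 0 d) (hσ : σ = 1 ∨ σ = -1) (hJ : 0 < σ * (a * d))
    {η : ℝ → ℝ} (hη : AnalyticAt ℝ η 0) (hy : ∀ s, y (s, 0) = s ^ 3 * η s) : ∃ g1,
    LE W 1 3 8 (A3 a d (η 0)) (B3 a d (η 0)) (-(σ * π / 4)) (6, 2) (12, 0)
      (8 * (a ^ 5 * d)) g1 := by
  obtain ⟨ha, hd⟩ := h.ad
  refine ⟨8 * a ^ 5 * (a ^ 6 + η 0 ^ 2) / d, h.lb3 hσ hJ hη hy, rfl, rfl, by decide,
    ⟨fun u => 8 * a ^ 5 * ((a * u) ^ 6 + (η 0 * u ^ 3 + d) ^ 2) / d, by fun_prop, ?_, fun u => ?_⟩,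
    ⟨fun v => 8 * a ^ 5 * (a ^ 6 + (η 0 + d * v) ^ 2) / d, by fun_prop, by simp, fun v => ?_⟩,
    by positivity, by positivity⟩
  · field_simp; ring
  · have := G3_eq a d (η 0) u 1
    simp only [Nat.cast_one, one_mul, mul_one, Nat.cast_ofNat] at this ⊢
    rw [this]; field_simp
  · have := G3_eq a d (η 0) 1 v
    simp only [Nat.cast_one, one_mul, mul_one, Nat.cast_ofNat, one_pow, pow_zero] at this ⊢
    rw [this]; field_simp

/-- both conditions hold, the weighted sum is not zero, and the axis is transversal -/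
def Good (W : ℝ × ℝ → ℝ × ℝ) : Prop :=
  (∀ a b, IsExpansion W a b → ∃ (l : ℕ) (p q : Fin l → ℕ) (ξ lam : Fin l → ℝ),
    IsData a b l p q ξ lam ∧ ∑ i, lam i * ξ i ≠ 0) ∧ ∀ᶠ x in 𝓝[>] (0 : ℝ), (W (x, 0)).2 ≠ 0

theorem exists_sign {J : ℝ} (hJ : J ≠ 0) : ∃ σ : ℝ, (σ = 1 ∨ σ = -1) ∧ 0 < σ * J := by
  rcases lt_or_gt_of_ne hJ with h | h
  · exact ⟨-1, Or.inr rfl, by linarith⟩
  · exact ⟨1, Or.inl rfl, by linarith⟩

theorem Pre.goodX (h : Pre x y W a b 0 d) : Good W ∧ Good (sw W) := by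
  obtain ⟨ha, hd⟩ := h.ad
  obtain ⟨σ, hσ, hJ⟩ := exists_sign (mul_ne_zero ha hd)
  have hσπ : σ * π ≠ 0 := mul_ne_zero (by rcases hσ with rfl | rfl <;> norm_num) pi_ne_zero
  obtain ⟨η, hη, hy⟩ := h.fac
  obtain ⟨g0, e1⟩ := h.le1X hσ hJ
  by_cases h0 : η 0 = 0
  · have e2 := h.le2b hη hy h0
    obtain ⟨ζ, hζ, -, hz⟩ := exists_factor hη h0
    obtain ⟨g1, e3⟩ := h.le3 hσ hJ hζ (fun s => by rw [hy s, hz s]; ring)
    refine ⟨⟨fun a' b' hE => ⟨_, _, _, _, _, data3 (e1.ok hE).1 (e2.ok hE).1 (e3.ok hE).1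
      (by norm_num) (by norm_num), ?_⟩, e3.trans⟩,
      ⟨fun a' b' hE => ⟨_, _, _, _, _, data3 (e3.swap.ok hE).1 (e2.swap.ok hE).1
        (e1.swap.ok hE).1 (by norm_num) (by norm_num), ?_⟩, e1.swap.trans⟩⟩
    · simp only [Fin.sum_univ_three, Matrix.cons_val_zero, Matrix.cons_val_one, Matrix.cons_val]
      intro h1
      apply hσπ
      field_simp at h1
      linarith
    · simp only [Fin.sum_univ_three, Matrix.cons_val_zero, Matrix.cons_val_one, Matrix.cons_val]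
      intro h1
      apply hσπ
      field_simp at h1
      linarith
  · obtain ⟨g1, e2⟩ := h.le2a hη hy h0
    refine ⟨⟨fun a' b' hE => ⟨_, _, _, _, _, data2 (e1.ok hE).1 (e2.ok hE).1 (by norm_num), ?_⟩,
      e2.trans⟩, ⟨fun a' b' hE => ⟨_, _, _, _, _, data2 (e2.swap.ok hE).1 (e1.swap.ok hE).1
        (by norm_num), ?_⟩, e1.swap.trans⟩⟩
    · simp only [Fin.sum_univ_two, Matrix.cons_val_zero, Matrix.cons_val_one]
      intro h1
      apply hσπ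
      linarith
    · simp only [Fin.sum_univ_two, Matrix.cons_val_zero, Matrix.cons_val_one]
      intro h1
      apply hσπ
      field_simp at h1
      linarith

theorem Pre.good (h : Pre x y W a b e d) : Good W := by
  by_cases he : e = 0
  · subst he; exact h.goodX.1
  by_cases hd : d = 0
  · subst hd
    have := h.swap.goodX.2
    rwa [sw_sw] at this
  obtain ⟨σ, hσ, hJ⟩ := exists_sign h.hJ
  have hσπ : σ * π ≠ 0 := mul_ne_zero (by rcases hσ with rfl | rfl <;> norm_num) pi_ne_zero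
  obtain ⟨g0, g1, e1⟩ := h.le1G hσ hJ he hd
  refine ⟨fun a' b' hE => ⟨_, _, _, _, _, data1 (e1.ok hE).1, ?_⟩, e1.trans⟩
  simp only [Fin.sum_univ_one, Matrix.cons_val_zero]
  intro h1
  apply hσπ
  linarith

end Pool.Agent.Lib.MP_296844_an.ND
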