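import Pool.Agent.Lib.MP_296844_an.ND.Defs

set_option autoImplicit false

/-! The first integral and the closed orbits. -/

namespace Pool.Agent.Lib.MP_296844_an.ND

open Filter Topology Real

/-- the first integral -/
noncomputable def II (z : ℝ × ℝ) : ℝ :=
  log (z.1 ^ 4 + z.2 ^ 2) + log ((z.1 ^ 4 + z.2 ^ 2) ^ 2 + (z.1 * z.2) ^ 2) / 2 +
    arctan (z.1 * z.2 / (z.1 ^ 4 + z.2 ^ 2))

/-- the inverse integrating factor -/
def MM (z : ℝ × ℝ) : ℝ := (z.1 ^ 4 + z.2 ^ 2) * ((z.1 ^ 4 + z.2 ^ 2) ^ 2 + (z.1 * z.2) ^ 2)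

theorem A_pos {z : ℝ × ℝ} (hz : z ≠ 0) : 0 < z.1 ^ 4 + z.2 ^ 2 := by
  by_cases h : z.1 = 0
  · have h2 : z.2 ≠ 0 := fun h2 => hz (Prod.ext h h2)
    positivity
  · positivity

theorem MM_pos {z : ℝ × ℝ} (hz : z ≠ 0) : 0 < MM z := by
  have := A_pos hz
  unfold MM
  positivity

theorem hasDerivAt_AB {A B : ℝ → ℝ} {A' B' t : ℝ} (hA : HasDerivAt A A' t)
    (hB : HasDerivAt B B' t) (h : 0 < A t) :
    HasDerivAt (fun s => log (A s) + log (A s ^ 2 + B s ^ 2) / 2 + arctan (B s / A s))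
      (((2 * A t ^ 2 + B t ^ 2 - A t * B t) * A' + (A t ^ 2 + A t * B t) * B')
        / (A t * (A t ^ 2 + B t ^ 2))) t := by
  have hN : 0 < A t ^ 2 + B t ^ 2 := by positivity
  have h1 := hA.log h.ne'
  have h2 := (((hA.fun_pow 2).fun_add (hB.fun_pow 2)).log hN.ne').div_const 2
  have h3 := (hB.fun_div hA h.ne').arctan
  refine ((h1.fun_add h2).fun_add h3).congr_deriv ?_
  have h4 := h.ne'
  have h5 := hN.ne'
  push_cast
  field_simp
  ring

theorem hasDerivAt_II {x y : ℝ → ℝ} {x' y' t : ℝ} (hx : HasDerivAt x x' t)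
    (hy : HasDerivAt y y' t) (hz : (x t, y t) ≠ 0) :
    HasDerivAt (fun s => II (x s, y s))
      (((centerField (x t, y t)).2 * x' - (centerField (x t, y t)).1 * y') / MM (x t, y t)) t := by
  refine (hasDerivAt_AB ((hx.fun_pow 4).fun_add (hy.fun_pow 2)) (hx.fun_mul hy)
    (A_pos hz)).congr_deriv ?_
  simp only [centerField, MM]
  congr 1
  push_cast
  ring

theorem NL_ge (z : ℝ × ℝ) :
    4 * MM z ≤ z.1 * (centerField z).2 - z.2 * (centerField z).1 := by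
  have h1 : 0 ≤ 2 * (z.1 ^ 4 + z.2 ^ 2) ^ 2 + (z.1 * z.2) ^ 2
      - (z.1 ^ 4 + z.2 ^ 2) * (z.1 * z.2) := by
    nlinarith [sq_nonneg (z.1 ^ 4 + z.2 ^ 2 - z.1 * z.2), sq_nonneg (z.1 ^ 4 + z.2 ^ 2),
      sq_nonneg (z.1 * z.2)]
  have h2 := mul_nonneg (by positivity : 0 ≤ 2 * z.1 ^ 4) h1
  simp only [centerField, MM]
  linarith

theorem center_zero_iff (z : ℝ × ℝ) : centerField z = 0 ↔ z = 0 := by
  refine ⟨fun h => ?_, fun h => by simp [h, centerField]⟩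
  by_contra hz
  have h1 := NL_ge z
  have h2 := MM_pos hz
  rw [h, Prod.fst_zero, Prod.snd_zero] at h1
  linarith

/-- polar coordinates -/
noncomputable def pp (L φ : ℝ) : ℝ × ℝ := (exp L * cos φ, exp L * sin φ)

/-- the first integral in polar coordinates -/
noncomputable def hI (L φ : ℝ) : ℝ := II (pp L φ)

/-- the angular part of the field -/
def NL (z : ℝ × ℝ) : ℝ := z.1 * (centerField z).2 - z.2 * (centerField z).1

/-- minus the radial part of the field -/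
def NA (z : ℝ × ℝ) : ℝ := -(z.1 * (centerField z).1 + z.2 * (centerField z).2)

theorem pp_ne (L φ : ℝ) : pp L φ ≠ 0 := by
  intro h
  have h1 : exp L * cos φ = 0 := congrArg Prod.fst h
  have h2 : exp L * sin φ = 0 := congrArg Prod.snd h
  rw [mul_eq_zero, or_iff_right (exp_pos L).ne'] at h1 h2
  have := sin_sq_add_cos_sq φ
  rw [h1, h2] at this
  norm_num at this

theorem NL_pos (L φ : ℝ) : 0 < NL (pp L φ) := by
  have h1 := NL_ge (pp L φ)
  have h2 := MM_pos (pp_ne L φ)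
  unfold NL
  linarith

theorem hasDerivAt_hI {L φ : ℝ → ℝ} {L' φ' t : ℝ} (hL : HasDerivAt L L' t)
    (hφ : HasDerivAt φ φ' t) :
    HasDerivAt (fun s => hI (L s) (φ s))
      ((NL (pp (L t) (φ t)) * L' + NA (pp (L t) (φ t)) * φ') / MM (pp (L t) (φ t))) t := by
  refine (hasDerivAt_II (hL.exp.fun_mul hφ.cos) (hL.exp.fun_mul hφ.sin)
    (pp_ne (L t) (φ t))).congr_deriv ?_
  simp only [NL, NA, pp]
  congr 1
  ring

theorem hI_mono (φ : ℝ) {L1 L2 : ℝ} (h : L1 ≤ L2) : 4 * (L2 - L1) ≤ hI L2 φ - hI L1 φ := by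
  have hd : ∀ L, HasDerivAt (fun s => hI s φ) (NL (pp L φ) / MM (pp L φ)) L := by
    intro L
    have := hasDerivAt_hI (hasDerivAt_id L) (hasDerivAt_const L φ)
    simpa using this
  apply mul_sub_le_image_sub_of_le_deriv (f := fun s => hI s φ) (fun L => (hd L).differentiableAt)
    _ h
  intro L
  rw [(hd L).deriv, le_div_iff₀ (MM_pos (pp_ne L φ))]
  exact NL_ge _

theorem hI_inj (φ : ℝ) : Function.Injective (fun L => hI L φ) := by
  apply StrictMono.injective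
  intro L1 L2 h
  have := hI_mono φ h.le
  show hI L1 φ < hI L2 φ
  linarith

theorem hI_surj (φ : ℝ) : Function.Surjective (fun L => hI L φ) := by
  have hc : Continuous (fun L => hI L φ) := by
    rw [continuous_iff_continuousAt]
    intro L
    exact (hasDerivAt_hI (hasDerivAt_id L) (hasDerivAt_const L φ)).continuousAt
  intro c
  have h1 := hI_mono φ (show -|c - hI 0 φ| ≤ 0 by simp)
  have h2 := hI_mono φ (abs_nonneg (c - hI 0 φ))
  have h3 := le_abs_self (c - hI 0 φ)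
  have h4 := neg_abs_le (c - hI 0 φ)
  have h5 := abs_nonneg (c - hI 0 φ)
  exact mem_range_of_exists_le_of_exists_ge hc ⟨-|c - hI 0 φ|, by linarith⟩
    ⟨|c - hI 0 φ|, by linarith⟩

/-- the level curves of the first integral -/
noncomputable def Lv (c φ : ℝ) : ℝ := Function.invFun (fun L => hI L φ) c

theorem hI_Lv (c φ : ℝ) : hI (Lv c φ) φ = c := Function.invFun_eq (hI_surj φ c)

theorem Lv_hI (L φ : ℝ) : Lv (hI L φ) φ = L := Function.leftInverse_invFun (hI_inj φ) L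

theorem contDiff_hI : ContDiff ℝ 1 (fun p : ℝ × ℝ => hI p.1 p.2) := by
  have hA : ContDiff ℝ 1 fun p : ℝ × ℝ => (pp p.1 p.2).1 ^ 4 + (pp p.1 p.2).2 ^ 2 := by
    unfold pp; fun_prop
  have hB : ContDiff ℝ 1 fun p : ℝ × ℝ => (pp p.1 p.2).1 * (pp p.1 p.2).2 := by
    unfold pp; fun_prop
  have h0 : ∀ p : ℝ × ℝ, 0 < (pp p.1 p.2).1 ^ 4 + (pp p.1 p.2).2 ^ 2 := fun p => A_pos (pp_ne _ _)
  exact ((hA.log fun p => (h0 p).ne').add ((((hA.pow 2).add (hB.pow 2)).log fun p => by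
    have := h0 p; positivity).div_const 2)).add (hB.div hA fun p => (h0 p).ne').arctan

theorem differentiableAt_Lv (c φ : ℝ) : DifferentiableAt ℝ (Lv c) φ := by
  set p : ℝ × ℝ := (Lv c φ, φ) with hp
  let Φ : ℝ × ℝ → ℝ × ℝ := fun p => (hI p.1 p.2, p.2)
  have hΦ : ContDiff ℝ 1 Φ := contDiff_hI.prodMk contDiff_snd
  have hs : HasStrictFDerivAt Φ (fderiv ℝ Φ p) p :=
    hΦ.contDiffAt.hasStrictFDerivAt one_ne_zero
  have hinj : Function.Injective (fderiv ℝ Φ p : (ℝ × ℝ) →ₗ[ℝ] (ℝ × ℝ)) := by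
    rw [injective_iff_map_eq_zero]
    intro v hv
    have hv' : fderiv ℝ Φ p v = 0 := hv
    have c1 : HasDerivAt (fun t : ℝ => p.1 + t * v.1) v.1 0 := by
      simpa using ((hasDerivAt_id (0 : ℝ)).mul_const v.1).const_add p.1
    have c2 : HasDerivAt (fun t : ℝ => p.2 + t * v.2) v.2 0 := by
      simpa using ((hasDerivAt_id (0 : ℝ)).mul_const v.2).const_add p.2
    have c3 := (hasDerivAt_hI c1 c2).prodMk c2
    have c4 : HasFDerivAt Φ (fderiv ℝ Φ p) (p.1 + 0 * v.1, p.2 + 0 * v.2) := by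
      simpa using hs.hasFDerivAt
    have c5 := c4.comp_hasDerivAt (0 : ℝ) (c1.prodMk c2)
    have c6 := c3.unique c5
    rw [show (v.1, v.2) = v from rfl, hv'] at c6
    have d2 : v.2 = 0 := congrArg Prod.snd c6
    have d1 := congrArg Prod.fst c6
    simp only [d2, mul_zero, add_zero, zero_mul, Prod.fst_zero, div_eq_zero_iff, mul_eq_zero,
      (NL_pos _ _).ne', (MM_pos (pp_ne _ _)).ne', false_or, or_false] at d1
    exact Prod.ext d1 d2
  let D := (LinearEquiv.ofInjectiveEndo _ hinj).toContinuousLinearEquiv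
  have hD : (D : (ℝ × ℝ) →L[ℝ] (ℝ × ℝ)) = fderiv ℝ Φ p := by ext <;> rfl
  rw [← hD] at hs
  have hg := hs.to_local_left_inverse (g := fun q : ℝ × ℝ => (Lv q.1 q.2, q.2))
    (Eventually.of_forall fun x => by simp [Φ, Lv_hI])
  have e : Φ p = (c, φ) := by simp [Φ, hp, hI_Lv]
  rw [e] at hg
  have h1 : DifferentiableAt ℝ (fun s : ℝ => (c, s)) φ := by fun_prop
  exact (hg.hasFDerivAt.differentiableAt.comp φ h1).fst

theorem hasDerivAt_Lv (c φ : ℝ) :
    HasDerivAt (Lv c) (-(NA (pp (Lv c φ) φ) / NL (pp (Lv c φ) φ))) φ := by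
  have h1 := (differentiableAt_Lv c φ).hasDerivAt
  have h2 := hasDerivAt_hI h1 (hasDerivAt_id φ)
  simp only [id, hI_Lv] at h2
  have h3 := h2.unique (hasDerivAt_const φ c)
  have h4 := (NL_pos (Lv c φ) φ).ne'
  rw [div_eq_zero_iff, or_iff_left (MM_pos (pp_ne _ _)).ne'] at h3
  refine h1.congr_deriv ?_
  field_simp
  linarith

/-- the change of time along a level curve -/
noncomputable def mv (c φ : ℝ) : ℝ :=
  exp (Lv c φ) ^ 2 * (sin φ ^ 2 + cos φ ^ 2) / NL (pp (Lv c φ) φ)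

theorem mv_pos (c φ : ℝ) : 0 < mv c φ := by
  refine div_pos ?_ (NL_pos _ _)
  rw [sin_sq_add_cos_sq]
  positivity

theorem continuous_mv (c : ℝ) : Continuous (mv c) := by
  have h : Continuous (Lv c) :=
    continuous_iff_continuousAt.2 fun φ => (differentiableAt_Lv c φ).continuousAt
  unfold mv
  apply Continuous.div (by fun_prop)
  · unfold NL centerField pp; fun_prop
  · intro φ; exact (NL_pos _ _).ne'

theorem hasDerivAt_level (c φ : ℝ) :
    HasDerivAt (fun s => pp (Lv c s) s) (mv c φ • centerField (pp (Lv c φ) φ)) φ := by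
  have h1 := (hasDerivAt_Lv c φ).exp
  have h2 := h1.fun_mul (hasDerivAt_cos φ)
  have h3 := h1.fun_mul (hasDerivAt_sin φ)
  have h4 := (NL_pos (Lv c φ) φ).ne'
  refine (h2.prodMk h3).congr_deriv ?_
  have e1 : NL (pp (Lv c φ) φ) = exp (Lv c φ) * cos φ * (centerField (pp (Lv c φ) φ)).2
      - exp (Lv c φ) * sin φ * (centerField (pp (Lv c φ) φ)).1 := rfl
  have e2 : NA (pp (Lv c φ) φ) = -(exp (Lv c φ) * cos φ * (centerField (pp (Lv c φ) φ)).1
      + exp (Lv c φ) * sin φ * (centerField (pp (Lv c φ) φ)).2) := rfl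
  refine Prod.ext ?_ ?_
  · simp only [mv, Prod.smul_fst, smul_eq_mul]
    field_simp
    rw [e1, e2]; ring
  · simp only [mv, Prod.smul_snd, smul_eq_mul]
    field_simp
    rw [e1, e2]; ring

theorem exists_level_arc (c : ℝ) {φ0 φ1 : ℝ} (h : φ0 < φ1) :
    ∃ T > 0, ∃ γ : ℝ → ℝ × ℝ, γ 0 = pp (Lv c φ0) φ0 ∧ γ T = pp (Lv c φ1) φ1 ∧
      (∀ t ∈ Set.Icc 0 T, HasDerivAt γ (centerField (γ t)) t ∧ ∃ φ, γ t = pp (Lv c φ) φ) ∧
      ∀ t ∈ Set.Ioo 0 T, ∃ φ ∈ Set.Ioo φ0 φ1, γ t = pp (Lv c φ) φ := by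
  let τ : ℝ → ℝ := fun φ => ∫ s in φ0..φ, mv c s
  have hτ : ∀ φ, HasStrictDerivAt τ (mv c φ) φ := fun φ =>
    (continuous_mv c).integral_hasStrictDerivAt φ0 φ
  have hmono : StrictMono τ := strictMono_of_deriv_pos fun φ => by
    rw [(hτ φ).hasDerivAt.deriv]; exact mv_pos c φ
  have hcont : Continuous τ := continuous_iff_continuousAt.2 fun φ => (hτ φ).hasDerivAt.continuousAt
  have h0 : τ φ0 = 0 := by simp [τ]
  let θ : ℝ → ℝ := Function.invFun τ
  have hθ : ∀ φ, θ (τ φ) = φ := Function.leftInverse_invFun hmono.injective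
  refine ⟨τ φ1, h0 ▸ hmono h, fun t => pp (Lv c (θ t)) (θ t), ?_, ?_, ?_, ?_⟩
  · simp only [← h0, hθ]
  · simp only [hθ]
  · intro t ht
    rw [← h0] at ht
    obtain ⟨φ, -, rfl⟩ := intermediate_value_Icc h.le hcont.continuousOn ht
    refine ⟨?_, φ, by simp only [hθ]⟩
    have h1 := ((hτ φ).to_local_left_inverse (mv_pos c φ).ne' (g := θ)
      (Eventually.of_forall hθ)).hasDerivAt
    have h2 := hasDerivAt_level c (θ (τ φ))
    have h3 := h2.scomp (τ φ) h1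
    refine h3.congr_deriv ?_
    simp only [hθ]
    rw [smul_smul, inv_mul_cancel₀ (mv_pos c φ).ne', one_smul]
  · intro t ht
    rw [← h0] at ht
    obtain ⟨φ, hφ, rfl⟩ := intermediate_value_Ioo h.le hcont.continuousOn ht
    exact ⟨φ, hφ, by simp only [hθ]⟩

theorem exists_pp {z : ℝ × ℝ} (hz : z ≠ 0) : ∃ L φ, pp L φ = z := by
  have h : (⟨z.1, z.2⟩ : ℂ) ≠ 0 := fun h =>
    hz (Prod.ext (congrArg Complex.re h) (congrArg Complex.im h))
  refine ⟨log ‖(⟨z.1, z.2⟩ : ℂ)‖, Complex.arg ⟨z.1, z.2⟩, ?_⟩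
  rw [pp, exp_log (norm_pos_iff.2 h), Complex.norm_mul_cos_arg, Complex.norm_mul_sin_arg]

theorem pp_add (L φ : ℝ) : pp L (φ + 2 * π) = pp L φ := by
  rw [pp, pp, cos_add_two_pi, sin_add_two_pi]

theorem pp_ne_of_lt {a b φ ψ : ℝ} (h1 : ψ < φ) (h2 : φ < ψ + 2 * π) : pp a φ ≠ pp b ψ := by
  intro h
  have e1 : exp a * cos φ = exp b * cos ψ := congrArg Prod.fst h
  have e2 : exp a * sin φ = exp b * sin ψ := congrArg Prod.snd h
  have f1 : exp a * sin (φ - ψ) = 0 := by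
    rw [sin_sub]; linear_combination cos ψ * e2 - sin ψ * e1
  have f2 : exp a * cos (φ - ψ) = exp b := by
    rw [cos_sub]; linear_combination cos ψ * e1 + sin ψ * e2 + exp b * sin_sq_add_cos_sq ψ
  rw [mul_eq_zero, or_iff_right (exp_pos a).ne'] at f1
  have f3 : 0 < cos (φ - ψ) := pos_of_mul_pos_right (f2 ▸ exp_pos b) (exp_pos a).le
  have f4 := sin_sq_add_cos_sq (φ - ψ)
  rw [f1] at f4
  have f5 : cos (φ - ψ) = 1 := by nlinarith
  have := (cos_eq_one_iff_of_lt_of_lt (by linarith [pi_pos]) (by linarith)).1 f5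
  linarith

theorem II_ge {z : ℝ × ℝ} (hz : z ≠ 0) : 2 * log (z.1 ^ 4 + z.2 ^ 2) - π / 2 ≤ II z := by
  have h := A_pos hz
  have h1 := log_le_log (pow_pos h 2)
    (le_add_of_nonneg_right (sq_nonneg (z.1 * z.2)))
  rw [log_pow] at h1
  have h2 := neg_pi_div_two_lt_arctan (z.1 * z.2 / (z.1 ^ 4 + z.2 ^ 2))
  unfold II
  push_cast at h1
  linarith

theorem A_ge {z : ℝ × ℝ} {δ : ℝ} (hδ : 0 < δ) (h : δ ≤ ‖z‖) :
    min (δ ^ 4) (δ ^ 2) ≤ z.1 ^ 4 + z.2 ^ 2 := by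
  rw [Prod.norm_def, le_max_iff, Real.norm_eq_abs, Real.norm_eq_abs] at h
  rcases h with h | h
  · have := pow_le_pow_left₀ hδ.le h 4
    rw [Even.pow_abs (by decide)] at this
    exact (min_le_left _ _).trans (this.trans (le_add_of_nonneg_right (sq_nonneg _)))
  · have := pow_le_pow_left₀ hδ.le h 2
    rw [sq_abs] at this
    exact (min_le_right _ _).trans (this.trans (le_add_of_nonneg_left (by positivity)))

/-- every orbit is a closed curve that meets a curve on which `II` is injective only once -/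
theorem curve_return {σ : ℝ → ℝ × ℝ} {ε : ℝ} (hε : 0 < ε) (h0 : Tendsto σ (𝓝[>] 0) (𝓝 0))
    (hne : ∀ s ∈ Set.Ioo 0 ε, σ s ≠ 0) (hinj : Set.InjOn (fun s => II (σ s)) (Set.Ioo 0 ε))
    {δ : ℝ} (hδ : 0 < δ) :
    ∀ᶠ s in 𝓝[>] (0 : ℝ), ∃ T > 0, ∃ γ : ℝ → ℝ × ℝ, γ 0 = σ s ∧ γ T = σ s ∧
      (∀ t ∈ Set.Icc 0 T, ‖γ t‖ < δ ∧ HasDerivAt γ (centerField (γ t)) t) ∧
      ∀ t ∈ Set.Ioo 0 T, ∀ s' ∈ Set.Ioo 0 ε, γ t ≠ σ s' := by
  obtain ⟨a, ha⟩ : ∃ a, a = min (δ ^ 4) (δ ^ 2) := ⟨_, rfl⟩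
  have ha0 : 0 < a := by rw [ha]; positivity
  have c1 : ContinuousAt (fun z : ℝ × ℝ => z.1 ^ 4 + z.2 ^ 2) 0 := by fun_prop
  have c2 : ContinuousAt (fun z : ℝ × ℝ => (z.1 ^ 4 + z.2 ^ 2) ^ 2 + (z.1 * z.2) ^ 2) 0 := by
    fun_prop
  have e1 := h0.eventually (c1.eventually_lt (continuousAt_const (y := exp (2 * log a - π)))
    (by simpa using exp_pos _))
  have e2 := h0.eventually (c2.eventually_lt (continuousAt_const (y := (1 : ℝ))) (by simp))
  filter_upwards [e1, e2, Ioo_mem_nhdsGT hε] with s s1 s2 hs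
  have hA := A_pos (hne s hs)
  have b1 : II (σ s) < 2 * log a - π / 2 := by
    have d1 := (log_lt_iff_lt_exp hA).2 s1
    have d2 := log_nonpos (by positivity) s2.le
    have d3 := arctan_lt_pi_div_two ((σ s).1 * (σ s).2 / ((σ s).1 ^ 4 + (σ s).2 ^ 2))
    unfold II
    linarith
  obtain ⟨L0, φ0, p0⟩ := exists_pp (hne s hs)
  have q0 : hI L0 φ0 = II (σ s) := by rw [hI, p0]
  have q1 : hI L0 (φ0 + 2 * π) = hI L0 φ0 := by rw [hI, hI, pp_add]
  obtain ⟨T, hT, γ, g0, gT, gd, gi⟩ := exists_level_arc (hI L0 φ0)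
    (show φ0 < φ0 + 2 * π by linarith [pi_pos])
  refine ⟨T, hT, γ, by rw [g0, Lv_hI, p0], by rw [gT, ← q1, Lv_hI, pp_add, p0],
    fun t ht => ?_, fun t ht s' hs' e' => ?_⟩
  · obtain ⟨d1, φ, e⟩ := gd t ht
    refine ⟨?_, d1⟩
    by_contra hc
    have r1 := A_ge hδ (not_lt.1 hc)
    rw [← ha] at r1
    have r2 := log_le_log ha0 r1
    have r3 := II_ge (z := γ t) (by rw [e]; exact pp_ne _ _)
    have r4 : II (γ t) = II (σ s) := by rw [e, ← q0]; exact hI_Lv _ _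
    linarith
  · obtain ⟨φ, hφ, e⟩ := gi t ht
    have r4 : II (σ s') = II (σ s) := by rw [← e', e, ← q0]; exact hI_Lv _ _
    obtain rfl : s' = s := hinj hs' hs r4
    exact pp_ne_of_lt hφ.1 hφ.2 (e.symm.trans (e'.trans p0.symm))

end Pool.Agent.Lib.MP_296844_an.ND
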