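import Pool.Agent.Lib.MP_296844_an.Chart
import Pool.Agent.Lib.MP_296844_an.ND.Edges
import Pool.Agent.Lib.MP_296844_an.ND.Orbit

set_option autoImplicit false

/-! The centre in an arbitrary analytic chart. -/

namespace Pool.Agent.Lib.MP_296844_an.ND

open Filter Topology Real ContDiff

noncomputable def pushC (Ψ : OpenPartialHomeomorph (ℝ × ℝ) (ℝ × ℝ)) (w : ℝ × ℝ) : ℝ × ℝ :=
  fderiv ℝ Ψ (Ψ.symm w) (centerField (Ψ.symm w))

variable {Ψ : OpenPartialHomeomorph (ℝ × ℝ) (ℝ × ℝ)}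

theorem analytic_center (z : ℝ × ℝ) : AnalyticAt ℝ centerField z := by
  have h : ContDiff ℝ ω centerField := by
    unfold centerField
    fun_prop
  exact h.contDiffAt.analyticAt

theorem chart_an (h : IsChart Ψ) : AnalyticAt ℝ (pushC Ψ) (0, 0) := by
  have h1 := h.aD (1, 0)
  have h2 := h.aD (0, 1)
  have h3 : AnalyticAt ℝ (fun w => centerField (Ψ.symm w)) (0, 0) :=
    (analytic_center _).comp h.aχ
  have e : pushC Ψ = fun w => _ := funext fun w => clm_apply' _ _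
  rw [e]
  exact (((analyticAt_fst.comp h1).mul (analyticAt_fst.comp h3)).add
    ((analyticAt_fst.comp h2).mul (analyticAt_snd.comp h3))).prod
    (((analyticAt_snd.comp h1).mul (analyticAt_fst.comp h3)).add
    ((analyticAt_snd.comp h2).mul (analyticAt_snd.comp h3)))

theorem chart_pre (h : IsChart Ψ) : ∃ a b e d,
    Pre (fun w => (Ψ.symm w).1) (fun w => (Ψ.symm w).2) (pushC Ψ) a b e d := by
  refine ⟨_, _, _, _, analyticAt_fst.comp h.aχ, analyticAt_snd.comp h.aχ, by rw [h.zero'],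
    by rw [h.zero'], rfl, rfl, rfl, rfl, ?_, ?_⟩
  · simp only [h.d1, h.d2]
    have i1 := h.inv (1, 0)
    have i2 := h.inv (0, 1)
    rw [clm_apply', Prod.mk.injEq] at i1 i2
    obtain ⟨e1, e2⟩ := i1
    obtain ⟨e3, e4⟩ := i2
    set a := (fderiv ℝ Ψ.symm (0, 0) (1, 0)).1
    set b := (fderiv ℝ Ψ.symm (0, 0) (0, 1)).1
    set c := (fderiv ℝ Ψ.symm (0, 0) (1, 0)).2
    set d := (fderiv ℝ Ψ.symm (0, 0) (0, 1)).2
    set n11 := (fderiv ℝ Ψ (0, 0) (1, 0)).1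
    set n21 := (fderiv ℝ Ψ (0, 0) (1, 0)).2
    set n12 := (fderiv ℝ Ψ (0, 0) (0, 1)).1
    set n22 := (fderiv ℝ Ψ (0, 0) (0, 1)).2
    have hΔ : (n11 * n22 - n12 * n21) * (a * d - b * c) = 1 := by
      linear_combination (n21 * b + n22 * d) * e1 + e4 - (n11 * b + n12 * d) * e2
    exact right_ne_zero_of_mul_eq_one hΔ
  · filter_upwards [Ψ.open_target.mem_nhds h.mem'] with w hw
    have hs := Ψ.map_target hw
    have d1 := (h.an' w hw).differentiableAt.hasFDerivAt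
    have d2 := (h.an _ hs).differentiableAt.hasFDerivAt
    have d1' : HasFDerivAt Ψ.symm (fderiv ℝ Ψ.symm w) (Ψ (Ψ.symm w)) := by
      rw [Ψ.right_inv hw]; exact d1
    have d3 := d1'.comp (Ψ.symm w) d2
    have d4 : HasFDerivAt (Ψ.symm ∘ Ψ) (ContinuousLinearMap.id ℝ (ℝ × ℝ)) (Ψ.symm w) :=
      (hasFDerivAt_id _).congr_of_eventuallyEq (Ψ.eventually_left_inverse hs)
    have d5 : fderiv ℝ Ψ.symm w (pushC Ψ w) = centerField (Ψ.symm w) :=
      congrArg (fun D : (ℝ × ℝ) →L[ℝ] (ℝ × ℝ) => D (centerField (Ψ.symm w))) (d3.unique d4)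
    rw [d1.fst.fderiv, d1.snd.fderiv]
    exact ⟨congrArg Prod.fst d5, congrArg Prod.snd d5⟩

theorem Pre.inj {x y : ℝ × ℝ → ℝ} {W : ℝ × ℝ → ℝ × ℝ} {a b e d : ℝ} (h : Pre x y W a b e d)
    (ht : ∀ᶠ s in 𝓝[>] (0 : ℝ), (W (s, 0)).2 ≠ 0) :
    ∃ ε > 0, (∀ s ∈ Set.Ioo (0 : ℝ) ε, (x (s, 0), y (s, 0)) ≠ 0) ∧
      Set.InjOn (fun s => II (x (s, 0), y (s, 0))) (Set.Ioo 0 ε) := by
  have c0 : Tendsto (fun s : ℝ => ((s, 0) : ℝ × ℝ)) (𝓝[>] 0) (𝓝 (0, 0)) :=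
    ((by fun_prop : Continuous fun s : ℝ => ((s, 0) : ℝ × ℝ)).tendsto 0).mono_left
      nhdsWithin_le_nhds
  have lJ := ((((der_an h.ax (1, 0)).mul (der_an h.ay (0, 1))).sub
    ((der_an h.ax (0, 1)).mul (der_an h.ay (1, 0)))).continuousAt.eventually_ne (y := 0) (by
      simpa only [Pi.sub_apply, Pi.mul_apply, h.ha, h.hb, h.he, h.hd] using h.hJ))
  have cl : ∀ (D : (ℝ × ℝ) →L[ℝ] ℝ) (z : ℝ × ℝ), D z = D (1, 0) * z.1 + D (0, 1) * z.2 :=
    fun D z => clm_apply D z.1 z.2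
  have ev : ∀ᶠ s in 𝓝[>] (0 : ℝ), (x (s, 0), y (s, 0)) ≠ 0 ∧
      ∃ D : ℝ, D ≠ 0 ∧ HasDerivAt (fun s => II (x (s, 0), y (s, 0))) D s := by
    filter_upwards [ht, c0.eventually lJ, c0.eventually h.hW,
      c0.eventually h.ax.eventually_analyticAt, c0.eventually h.ay.eventually_analyticAt]
      with s h1 h2 ⟨k1, k2⟩ h4 h5
    simp only [Pi.sub_apply, Pi.mul_apply] at h2
    rw [cl] at k1 k2
    have h6 : (centerField (x (s, 0), y (s, 0))).2 * fderiv ℝ x (s, 0) (1, 0) -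
        (centerField (x (s, 0), y (s, 0))).1 * fderiv ℝ y (s, 0) (1, 0) ≠ 0 := by
      intro h0
      apply mul_ne_zero h2 h1
      linear_combination h0 + fderiv ℝ x (s, 0) (1, 0) * k2 - fderiv ℝ y (s, 0) (1, 0) * k1
    have h7 : (x (s, 0), y (s, 0)) ≠ 0 := by
      intro h0
      rw [(center_zero_iff _).2 h0] at h6
      simp at h6
    exact ⟨h7, _, div_ne_zero h6 (MM_pos h7).ne', hasDerivAt_II (axis_der h4) (axis_der h5) h7⟩
  obtain ⟨ε, hε, hall⟩ := (mem_nhdsGT_iff_exists_Ioo_subset).1 ev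
  refine ⟨ε, hε, fun s hs => (hall hs).1, ?_⟩
  have key : ∀ s ∈ Set.Ioo (0 : ℝ) ε, ∀ s' ∈ Set.Ioo (0 : ℝ) ε, s < s' →
      II (x (s, 0), y (s, 0)) ≠ II (x (s', 0), y (s', 0)) := by
    intro s hs s' hs' hlt e0
    obtain ⟨c, hc, h0⟩ := exists_deriv_eq_zero (f := fun s => II (x (s, 0), y (s, 0))) hlt
      (fun r hr => by
        obtain ⟨D, -, hD⟩ := (hall (show r ∈ Set.Ioo 0 ε from
          ⟨hs.1.trans_le hr.1, hr.2.trans_lt hs'.2⟩)).2
        exact hD.continuousAt.continuousWithinAt) e0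
    obtain ⟨D, hD0, hD⟩ := (hall (show c ∈ Set.Ioo 0 ε from
      ⟨hs.1.trans hc.1, hc.2.trans hs'.2⟩)).2
    exact hD0 (hD.deriv.symm.trans h0)
  intro s hs s' hs' e0
  rcases lt_trichotomy s s' with h1 | h1 | h1
  · exact absurd e0 (key s hs s' hs' h1)
  · exact h1
  · exact absurd e0.symm (key s' hs' s hs h1)

theorem chart_ret (h : IsChart Ψ) : ∃ ε > 0, IsReturnMap (pushC Ψ) Ψ.target ε id := by
  obtain ⟨a, b, e, d, hp⟩ := chart_pre h
  have tr := hp.good.2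
  obtain ⟨ε1, hε1, hne, hinj⟩ := hp.inj tr
  have c0 : ContinuousAt (fun s : ℝ => ((s, 0) : ℝ × ℝ)) 0 := by fun_prop
  have cσ : Tendsto (fun s : ℝ => Ψ.symm (s, 0)) (𝓝[>] 0) (𝓝 0) := by
    have := (ContinuousAt.comp (f := fun s : ℝ => ((s, 0) : ℝ × ℝ)) h.aχ.continuousAt c0).tendsto
    simp only [Function.comp_def, h.zero'] at this
    exact this.mono_left nhdsWithin_le_nhds
  have nb : ∀ᶠ z in 𝓝 ((0, 0) : ℝ × ℝ), z ∈ Ψ.source ∧ ‖Ψ z‖ < ε1 := by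
    refine Eventually.and (Ψ.open_source.mem_nhds h.mem) ?_
    exact (h.an _ h.mem).continuousAt.norm.eventually_lt continuousAt_const
      (by rw [h.zero]; simpa using hε1)
  obtain ⟨δ, hδ, hball⟩ := Metric.eventually_nhds_iff.1 nb
  have tg : ∀ᶠ x in 𝓝[>] (0 : ℝ), ((x, 0) : ℝ × ℝ) ∈ Ψ.target :=
    nhdsWithin_le_nhds (c0.eventually (Ψ.open_target.mem_nhds h.mem'))
  obtain ⟨ε, hε, hall⟩ := (mem_nhdsGT_iff_exists_Ioo_subset).1
    ((curve_return hε1 cσ hne hinj hδ).and (tr.and tg))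
  refine ⟨ε, hε, fun x hx => ?_⟩
  obtain ⟨⟨T, hT, γ, g0, gT, gd, gi⟩, t1, t2⟩ := hall hx
  have hb : ∀ t ∈ Set.Icc 0 T, γ t ∈ Ψ.source ∧ ‖Ψ (γ t)‖ < ε1 := by
    intro t ht
    apply hball
    rw [show ((0, 0) : ℝ × ℝ) = 0 from rfl, dist_zero_right]
    exact (gd t ht).1
  refine ⟨t1, hx.1, T, hT, fun t => Ψ (γ t), ?_, ?_, ?_, ?_⟩
  · simp only [g0]; exact Ψ.right_inv t2
  · simp only [gT]; exact Ψ.right_inv t2
  · intro t ht
    refine ⟨Ψ.map_source (hb t ht).1, ?_⟩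
    simp only [pushC, Ψ.left_inv (hb t ht).1]
    exact (h.an _ (hb t ht).1).differentiableAt.hasFDerivAt.comp_hasDerivAt t (gd t ht).2
  · rintro t ht ⟨k1, k2⟩
    have k3 := hb t (Set.Ioo_subset_Icc_self ht)
    apply gi t ht (Ψ (γ t)).1 ⟨k2, lt_of_le_of_lt ?_ k3.2⟩
    · have : ((Ψ (γ t)).1, (0 : ℝ)) = Ψ (γ t) := Prod.ext rfl k1.symm
      rw [this, Ψ.left_inv k3.1]
    · exact (le_abs_self _).trans (norm_fst_le (Ψ (γ t)))

theorem pre_id : Pre (fun w => w.1) (fun w => w.2) centerField 1 0 0 1 := by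
  have e1 : ∀ w v : ℝ × ℝ, fderiv ℝ (fun w : ℝ × ℝ => w.1) w v = v.1 := fun w v => by
    rw [hasFDerivAt_fst.fderiv]; rfl
  have e2 : ∀ w v : ℝ × ℝ, fderiv ℝ (fun w : ℝ × ℝ => w.2) w v = v.2 := fun w v => by
    rw [hasFDerivAt_snd.fderiv]; rfl
  exact ⟨analyticAt_fst, analyticAt_snd, rfl, rfl, e1 _ _, e1 _ _, e2 _ _, e2 _ _, by norm_num,
    Eventually.of_forall fun w => ⟨e1 _ _, e2 _ _⟩⟩

theorem nondeg {a b : ℕ × ℕ → ℝ} (hE : IsExpansion centerField a b) {p q : ℕ}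
    (hpq : IsEdgeWeight a b p q) {φ : ℝ} (hφ : cos φ * sin φ ≠ 0) : 0 < angG a b p q φ := by
  obtain ⟨hc, hs⟩ := mul_ne_zero_iff.1 hφ
  have an : AnalyticAt ℝ (fun _ : ℝ => (0 : ℝ)) 0 := analyticAt_const
  obtain ⟨g0, e1⟩ := pre_id.le1X (σ := 1) (Or.inl rfl) (by norm_num)
  have e2 := pre_id.le2b an (fun s => by simp) rfl
  obtain ⟨g1, e3⟩ := pre_id.le3 (σ := 1) (Or.inl rfl) (by norm_num) an (fun s => by simp)
  obtain ⟨o1, p1, q1⟩ := e1.ok hE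
  obtain ⟨o2, p2, q2⟩ := e2.ok hE
  obtain ⟨o3, p3, q3⟩ := e3.ok hE
  obtain ⟨i, rfl, rfl⟩ := ((data3 o1 o2 o3 (by norm_num) (by norm_num)).1 p q).1 hpq
  fin_cases i
  · show 0 < angG a b 1 1 φ
    have := G1_eq 1 0 0 1 (cos φ) (sin φ)
    simp only [angG, p1, q1, Nat.cast_one, one_mul, zero_mul, add_zero, zero_add, sub_zero,
      div_one] at this ⊢
    rw [this]; positivity
  · show 0 < angG a b 1 2 φ
    have := G2_eq 1 1 0 (cos φ) (sin φ)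
    simp only [angG, p2, q2, Nat.cast_one, Nat.cast_ofNat, one_mul, zero_mul, zero_add,
      div_one] at this ⊢
    rw [this]; positivity
  · show 0 < angG a b 1 3 φ
    have := G3_eq 1 1 0 (cos φ) (sin φ)
    simp only [angG, p3, q3, Nat.cast_one, Nat.cast_ofNat, one_mul, zero_mul, zero_add,
      div_one] at this ⊢
    rw [this]; positivity

end Pool.Agent.Lib.MP_296844_an.ND
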