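import Pool.Agent.Lib.MP_296844_an.ND.Defs

set_option autoImplicit false

/-! The data of a Newton diagram are unique. -/

namespace Pool.Agent.Lib.MP_296844_an.ND

open Filter Topology

theorem data_unique {a b : ℕ × ℕ → ℝ} {l l' : ℕ} {p q : Fin l → ℕ} {ξ lam : Fin l → ℝ}
    {p' q' : Fin l' → ℕ} {ξ' lam' : Fin l' → ℝ} (h : IsData a b l p q ξ lam)
    (h' : IsData a b l' p' q' ξ' lam') : ∑ i, lam i * ξ i = ∑ i, lam' i * ξ' i := by
  obtain ⟨e, m, v, z, s⟩ := h
  obtain ⟨e', m', v', z', s'⟩ := h'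
  have hr : Set.range (fun i => (q i : ℝ) / p i) = Set.range (fun i => (q' i : ℝ) / p' i) := by
    ext x
    constructor
    · rintro ⟨i, rfl⟩
      obtain ⟨j, h1, h2⟩ := (e' _ _).1 ((e _ _).2 ⟨i, rfl, rfl⟩)
      exact ⟨j, by simp only [h1, h2]⟩
    · rintro ⟨i, rfl⟩
      obtain ⟨j, h1, h2⟩ := (e _ _).1 ((e' _ _).2 ⟨i, rfl, rfl⟩)
      exact ⟨j, by simp only [h1, h2]⟩
  have hl : l = l' := by
    have h1 := Set.ncard_range_of_injective m.injective
    have h2 := Set.ncard_range_of_injective m'.injective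
    rw [hr, h2] at h1
    simpa using h1.symm
  subst hl
  have hf := (m.range_inj m').1 hr
  have hpq : ∀ i, p i = p' i ∧ q i = q' i := by
    intro i
    obtain ⟨j, h1, h2⟩ := (e' _ _).1 ((e _ _).2 ⟨i, rfl, rfl⟩)
    have h3 : j = i := m'.injective (by
      have h4 := congrFun hf i
      simp only [h1, h2] at h4
      exact h4)
    rw [h3] at h1 h2
    exact ⟨h1, h2⟩
  obtain rfl : p = p' := funext fun i => (hpq i).1
  obtain rfl : q = q' := funext fun i => (hpq i).2
  refine Finset.sum_congr rfl fun j _ => ?_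
  rw [tendsto_nhds_unique (v j).2.2 (v' j).2.2]
  congr 1
  rcases Nat.eq_zero_or_pos j.val with h0 | h0
  · rw [z j h0, z' j h0]
  · let i : Fin l := ⟨j.val - 1, by omega⟩
    have hij : j.val = i.val + 1 := by simp only [i]; omega
    obtain ⟨n, a1, a2, -, -, a5⟩ := s i j hij
    obtain ⟨n', b1, b2, -, -, b5⟩ := s' i j hij
    have hi : (0 : ℝ) < p i := by exact_mod_cast ((e _ _).2 ⟨i, rfl, rfl⟩).1
    have hj : (0 : ℝ) < p j := by exact_mod_cast ((e _ _).2 ⟨j, rfl, rfl⟩).1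
    have hlt : (q i : ℝ) / p i < q j / p j := m (show i < j from by rw [Fin.lt_def]; omega)
    rw [div_lt_div_iff₀ hi hj] at hlt
    have c1 : (p i : ℝ) * n.1 + q i * n.2 = p i * n'.1 + q i * n'.2 := by
      exact_mod_cast a1.trans b1.symm
    have c2 : (p j : ℝ) * n.1 + q j * n.2 = p j * n'.1 + q j * n'.2 := by
      exact_mod_cast a2.trans b2.symm
    have d2 : (n.2 : ℝ) = n'.2 :=
      mul_left_cancel₀ (sub_pos.2 hlt).ne' (by linear_combination p i * c2 - p j * c1)
    have d1 : (n.1 : ℝ) = n'.1 :=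
      mul_left_cancel₀ hi.ne' (by linear_combination c1 - q i * d2)
    have hn : n = n' := Prod.ext (by exact_mod_cast d1) (by exact_mod_cast d2)
    rw [a5, b5, hn]

end Pool.Agent.Lib.MP_296844_an.ND
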